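import Pool.Agent.H6.AFR.Tnr
import Pool.Agent.H62.AFN.Dn3

/-!
# The data at the exact points, in natural units, without a radius

`afd_r`: `afd_nat` when all second derivatives in natural directions are small, for a label with
any radius exponent `ρ ≤ J`.
-/

set_option autoImplicit false

namespace Pool.JVE.R6

open Finset MvPolynomial
open Pool.Agent.H49.Ent Pool.Agent.H32.Dense Pool.STK Pool.KA Pool.KSAT Pool.K2S Pool.PB Pool.GEN
open Pool.MIC6 (dpt dpt_near dpt_none mvp wt wp wpt wp_eq mva)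
open Pool.D2R (hs dd hs_comm hs_add_left hs_add_right hs_smul_left hs_smul_right)

variable {m J : ℕ}

/-- **The data at the exact points, without a radius.** -/
theorem afd_r (K : ℕ) : ∃ C : ℝ, 1 ≤ C ∧ ∀ {m J : ℕ} (F : Fam m J) {A A' : F.Ω → Prop}
    {y u v k : Fin m} {e w ρ P N R R' s c : ℕ} {V : Type} {z : PtT F → V} {z' : LnT F → V}
    {G : V → MvPolynomial (Option (Fin m)) ℝ} {au cu bv cv ak θp : PtT F → ℝ}
    {θs ju jv : LnT F → ℝ} {aU aD : ℝ}, Sub A' A → y ≠ u → y ≠ v → u ≠ v →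
    LbOK F {y, u, v} k K e J w ρ P A z z' G →
    ND F A y u v w e au cu bv cv θp θs ju jv aU aD (1 / 2 ^ c) →
    2 ^ (w + e + 4) / 2 ^ J ≤ 1 / 2 ^ c * aU → 2 ^ (w + e + 4) / 2 ^ J ≤ 1 / 2 ^ c * aD →
    HA F A w y u v au bv θp aU aD z G (1 / 2 ^ s) →
    w ≤ J → ρ ≤ J → 2 ≤ c →
    (∀ ω, A' ω → ∀ σ ∈ Set.Icc (0 : ℝ) 1, ∀ η : ℝ, |η| ≤ 1 →
      |eval (mvp (F.u ω) (F.d ω) (sl3 y u v (au (ptr F J ω)) (bv (ptr F J ω) +
        θp (ptr F J ω) * au (ptr F J ω))) (wt F w ω σ) (1 / 2 ^ w * η)) (G (z' (slam F w ω))) -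
        (wp F w ω σ k + ak (ptr F J ω) * (1 / 2 ^ w * η))| ≤ 1 / 2 ^ R) →
    0 < aU → aU ≤ 1 → 0 < aD →
    C ≤ 2 ^ N → N + R' + 1 ≤ R → N + R' + 2 ≤ s + c →
    Afd F A' y u v w au (fun p => bv p + θp p * au p) z G θp θs ju jv aU aD (1 / 2 ^ R') ∧
    (∀ ω, A' ω → ∀ j,
      (1 / 2 ^ w) ^ 2 * |hs (G (z (ptr F J ω))) (bt F ω) (bd F ω) (nd4 F y u v
          (au (ptr F J ω)) (bv (ptr F J ω)) (θp (ptr F J ω)) aU aD ω j) -
        hs (G (z (ptr F J ω))) (dpt (ptr F J ω)) (bd F ω) (nd4 F y u v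
          (au (ptr F J ω)) (bv (ptr F J ω)) (θp (ptr F J ω)) aU aD ω j)| ≤ 1 / 2 ^ R') ∧
    (∀ ω, A' ω → ∀ j, |dd (G (z (ptr F J ω))) (dpt (ptr F J ω)) (nd4 F y u v
          (au (ptr F J ω)) (bv (ptr F J ω)) (θp (ptr F J ω)) aU aD ω j) -
        dd (G (z (ptr F J ω))) (bt F ω) (nd4 F y u v
          (au (ptr F J ω)) (bv (ptr F J ω)) (θp (ptr F J ω)) aU aD ω j)| ≤
            2 ^ w * (1 / 2 ^ R')) ∧
    (∀ ω, A' ω → ∀ o, |eval (dpt (ptr F J ω)) (pderiv o (G (z (ptr F J ω))))| ≤ 2 ^ e) := by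
  classical
  obtain ⟨C₁, hC₁, hown⟩ := hs_own K
  obtain ⟨C₂, hC₂, hcmp⟩ := cmp_hs K
  refine ⟨C₁ + C₂, by linarith, ?_⟩
  intro m J F A A' y u v k e w ρ P N R R' s c V z z' G au cu bv cv ak θp θs ju jv aU aD hA' hyu hyv
    huv hlab hnd hκU hκD hN2 hw hρ hc hpl hU0 hU1 hD0 hN n1 n3
  have hθ := hnd.hθ
  have hκ3 : 3 * ((1 : ℝ) / 2 ^ c) ≤ 1 := by
    have h1 : (1 : ℝ) / 2 ^ c ≤ 1 / 2 ^ 2 := inv_mono hc
    norm_num at h1
    norm_num
    linarith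
  have hκ0 : (0 : ℝ) < 1 / 2 ^ c := by positivity
  have hκ1 : (1 : ℝ) / 2 ^ c ≤ 1 := by linarith
  have hCN₁ : C₁ ≤ 2 ^ N := by linarith
  have hCN₂ : C₂ ≤ 2 ^ N := by linarith
  have pe : (1 : ℝ) ≤ 2 ^ e := one_le_pow₀ (by norm_num)
  have two : ∀ a b c : ℕ, a + c ≤ b → (2 : ℝ) ^ a / 2 ^ b ≤ 1 / 2 ^ c := by
    intro a b c h
    rw [div_le_div_iff₀ (by positivity) (by positivity), one_mul, ← pow_add]
    exact pow_le_pow_right₀ (by norm_num) h
  have hhalf : (1 : ℝ) / 2 ^ (R' + 1) + 1 / 2 ^ (R' + 1) = 1 / 2 ^ R' := by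
    rw [pow_succ]
    field_simp
    norm_num
  have hs2 : C₂ * (1 / 2 ^ c * (1 / 2 ^ s)) ≤ 1 / 2 ^ (R' + 1) := by
    have e1 : C₂ * (1 / 2 ^ c * (1 / 2 ^ s)) = C₂ / 2 ^ (s + c) := by
      rw [pow_add]
      field_simp
    rw [e1]
    exact (div_le_div_of_nonneg_right hCN₂ (by positivity)).trans (two _ _ _ (by omega))
  have hs1 : (1 / 2 ^ c * (1 / 2 ^ s)) ≤ (1 : ℝ) / 2 ^ R' := by
    have e1 : (1 : ℝ) / 2 ^ c * (1 / 2 ^ s) = 1 / 2 ^ (s + c) := by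
      rw [pow_add]
      field_simp
    rw [e1]
    exact inv_mono (by omega)
  have hC₁R : C₁ * (1 / 2 ^ R) ≤ 1 / 2 ^ (R' + 1) := by
    rw [mul_one_div]
    exact (div_le_div_of_nonneg_right hCN₁ (by positivity)).trans (two _ _ _ (by omega))
  have hown' := hown F (A := A') (k := k) (w := w) (z' := z') (G := G)
    (a := fun ω => ak (ptr F J ω))
    (sl := fun ω => sl3 y u v (au (ptr F J ω)) (bv (ptr F J ω) +
      θp (ptr F J ω) * au (ptr F J ω))) (S := 1 / 2 ^ R) hw hlab.deg hpl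
  -- comparison of the two points, in the frame of another line
  have hcm : ∀ ω ω', A ω → A ω' → slam F w ω' = slam F w ω → ∀ i j,
      (1 / 2 ^ w) ^ 2 * |hs (G (z (ptr F J ω))) (dpt (ptr F J ω))
        (nd4 F y u v (au (ptr F J ω')) (bv (ptr F J ω')) (θp (ptr F J ω')) aU aD ω' i)
        (nd4 F y u v (au (ptr F J ω')) (bv (ptr F J ω')) (θp (ptr F J ω')) aU aD ω' j) -
        hs (G (z (ptr F J ω))) (bt F ω)
        (nd4 F y u v (au (ptr F J ω')) (bv (ptr F J ω')) (θp (ptr F J ω')) aU aD ω' i)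
        (nd4 F y u v (au (ptr F J ω')) (bv (ptr F J ω')) (θp (ptr F J ω')) aU aD ω' j)| ≤
        1 / 2 ^ (R' + 1) := by
    intro ω ω' hω hω' hsl i j
    have hG : G (z (ptr F J ω)) = G (z (ptr F J ω')) := by
      rw [hlab.cls ω hω, hlab.cls ω' hω', hsl]
    rw [hG]
    exact (hcmp (hnd.hbu ω' hω').1 (hnd.hbv ω' hω').1 (hθ ω' hω') hU0 hU1 hD0 hκ0 hκ1 hκU hκD
      (hlab.deg _) ((npt_dpt F hw ω).slam hsl) (fun j => by
        rw [dl_slam F hsl, dl_bt F hw]) (by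
        rw [dpt_none]
        rfl) (fun x hx => hN2 ω' hω' x hx i j)).trans hs2
  have hp_of : ∀ ω ω', A ω → A ω' → slam F w ω' = slam F w ω → ∀ i j,
      (1 / 2 ^ w) ^ 2 * |hs (G (z' (slam F w ω))) (bt F ω)
        (nd4 F y u v (au (ptr F J ω')) (bv (ptr F J ω')) (θp (ptr F J ω')) aU aD ω' i)
        (nd4 F y u v (au (ptr F J ω')) (bv (ptr F J ω')) (θp (ptr F J ω')) aU aD ω' j)| ≤
        C₁ * (1 / 2 ^ R) →
      |hp F w z G (ptr F J ω)
        (nd4 F y u v (au (ptr F J ω')) (bv (ptr F J ω')) (θp (ptr F J ω')) aU aD ω' i)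
        (nd4 F y u v (au (ptr F J ω')) (bv (ptr F J ω')) (θp (ptr F J ω')) aU aD ω' j)| ≤
        1 / 2 ^ R' := by
    intro ω ω' hω hω' hsl i j h1
    have h2 := hcm ω ω' hω hω' hsl i j
    rw [← hlab.cls ω hω] at h1
    obtain ⟨W, hW⟩ : ∃ W, W = nd4 F y u v (au (ptr F J ω')) (bv (ptr F J ω'))
      (θp (ptr F J ω')) aU aD ω' i := ⟨_, rfl⟩
    obtain ⟨W', hW'⟩ : ∃ W, W = nd4 F y u v (au (ptr F J ω')) (bv (ptr F J ω'))
      (θp (ptr F J ω')) aU aD ω' j := ⟨_, rfl⟩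
    rw [← hW, ← hW'] at h1 h2 ⊢
    have e1 : hp F w z G (ptr F J ω) W W' =
        (1 / 2 ^ w) ^ 2 * hs (G (z (ptr F J ω))) (bt F ω) W W' +
        (1 / 2 ^ w) ^ 2 * (hs (G (z (ptr F J ω))) (dpt (ptr F J ω)) W W' -
          hs (G (z (ptr F J ω))) (bt F ω) W W') := by
      unfold hp
      ring
    have hpos : (0 : ℝ) < (1 / 2 ^ w) ^ 2 := by positivity
    rw [e1, ← hhalf]
    refine (abs_add_le _ _).trans (add_le_add ?_ ?_)
    · rw [abs_mul, abs_of_pos hpos]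
      exact h1.trans hC₁R
    · rw [abs_mul, abs_of_pos hpos]
      exact h2
  have hbd : ∀ ω ω', slam F w ω' = slam F w ω → bd F ω' = bd F ω := by
    intro ω ω' hsl
    have hd : F.d ω' = F.d ω := (Prod.ext_iff.mp (Prod.ext_iff.mp hsl).1).2
    funext o
    cases o with
    | none => rfl
    | some j =>
      show F.d ω' j = F.d ω j
      rw [hd]
  refine ⟨⟨fun ω hω => hnd.thc ω (hA' ω hω), fun ω hω => hnd.nu ω (hA' ω hω),
    fun ω hω => ?_, fun ω ω' hω hω' hsl => ?_, fun ω ω' hω hω' hsl => ?_,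
    fun ω ω' hω hω' hps => ?_⟩, fun ω hω j => ?_, fun ω hω j => ?_, fun ω hω o => ?_⟩
  · have h1 := hnd.nv ω (hA' ω hω)
    have h2 := hnd.thc ω (hA' ω hω)
    have e1 : jv (slam F w ω) + θs (slam F w ω) * au (ptr F J ω) -
        (fun p => bv p + θp p * au p) (ptr F J ω) = jv (slam F w ω) - bv (ptr F J ω) := by
      show jv (slam F w ω) + θs (slam F w ω) * au (ptr F J ω) -
        (bv (ptr F J ω) + θp (ptr F J ω) * au (ptr F J ω)) = _
      rw [h2]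
      ring
    rw [e1]
    exact h1
  · have h1 := hp_of ω ω' (hA' ω hω) (hA' ω' hω') hsl 0 1 (by
      show (1 / 2 ^ w) ^ 2 * |hs (G (z' (slam F w ω))) (bt F ω) (bd F ω') (svc (sl3 y u v
        (au (ptr F J ω')) (bv (ptr F J ω') + θp (ptr F J ω') * au (ptr F J ω'))))| ≤ _
      rw [hbd ω ω' hsl]
      exact (hown' ω ω' hω' hsl).1)
    have h2 : |hp F w z G (ptr F J ω) (bd F ω') (svc (sl3 y u v (au (ptr F J ω'))
        (bv (ptr F J ω') + θp (ptr F J ω') * au (ptr F J ω'))))| ≤ 1 / 2 ^ R' := h1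
    rw [hbd ω ω' hsl] at h2
    exact h2
  · exact hp_of ω ω' (hA' ω hω) (hA' ω' hω') hsl 1 1 (hown' ω ω' hω' hsl).2
  · -- the difference of the directions
    have hωA := hA' ω hω
    have hω'A := hA' ω' hω'
    have hmem := hnd.mem_dpt hw hκU hκD hU0 hD0 hκ3 hωA
    have hb := hN2 ω hωA _ hmem
    have hu := hnd.two_u hωA hω'A hps.symm
    have hv := hnd.two_v hωA hω'A hps.symm
    obtain ⟨δ, hδ⟩ : ∃ δ : Option (Fin m) → ℝ, δ = bd F ω' - bd F ω -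
      (F.d ω' y - F.d ω y) • svc (sl3 y u v (au (ptr F J ω))
        ((fun p => bv p + θp p * au p) (ptr F J ω))) := ⟨_, rfl⟩
    rw [← hδ]
    have hδn : δ none = 0 := by
      rw [hδ]
      show (1 : ℝ) - 1 - (F.d ω' y - F.d ω y) * 0 = 0
      ring
    have hδj : ∀ j, δ (some j) = F.d ω' j - F.d ω j - (F.d ω' y - F.d ω y) *
        sl3 y u v (au (ptr F J ω)) (bv (ptr F J ω) + θp (ptr F J ω) * au (ptr F J ω)) j := by
      intro j
      rw [hδ]
      rfl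
    have hδy : δ (some y) = 0 := by
      rw [hδj]
      have : sl3 y u v (au (ptr F J ω)) (bv (ptr F J ω) + θp (ptr F J ω) *
        au (ptr F J ω)) y = 1 := if_pos rfl
      rw [this]
      ring
    have hδu : δ (some u) = (F.d ω' u - F.d ω u) - au (ptr F J ω) * (F.d ω' y - F.d ω y) := by
      rw [hδj]
      have : sl3 y u v (au (ptr F J ω)) (bv (ptr F J ω) + θp (ptr F J ω) *
          au (ptr F J ω)) u = au (ptr F J ω) := by
        unfold sl3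
        rw [if_neg (Ne.symm hyu), if_pos rfl]
      rw [this]
      ring
    have hδv : δ (some v) = (F.d ω' v - F.d ω v) -
        (bv (ptr F J ω) + θp (ptr F J ω) * au (ptr F J ω)) * (F.d ω' y - F.d ω y) := by
      rw [hδj]
      have : sl3 y u v (au (ptr F J ω)) (bv (ptr F J ω) + θp (ptr F J ω) *
          au (ptr F J ω)) v = bv (ptr F J ω) + θp (ptr F J ω) * au (ptr F J ω) := by
        unfold sl3
        rw [if_neg (Ne.symm hyv), if_neg (Ne.symm huv), if_pos rfl]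
      rw [this]
      ring
    have key : ∀ W : Option (Fin m) → ℝ,
        (1 / 2 ^ w) ^ 2 * |hs (G (z (ptr F J ω))) (dpt (ptr F J ω))
          (aU • eu u v (θp (ptr F J ω))) W| ≤ 1 / 2 ^ s →
        (1 / 2 ^ w) ^ 2 * |hs (G (z (ptr F J ω))) (dpt (ptr F J ω)) (aD • ev v) W| ≤ 1 / 2 ^ s →
        |hp F w z G (ptr F J ω) δ W| ≤ 1 / 2 ^ R' := by
      intro W h1 h2
      unfold hp
      have hpos : (0 : ℝ) < (1 / 2 ^ w) ^ 2 := by positivity
      rw [dec4 hyu hyv huv (hlab.dep _) F ω hU0 hD0 (dpt (ptr F J ω)) W δ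
        (a := au (ptr F J ω)) (b := bv (ptr F J ω)) (t := θp (ptr F J ω)), hδn, hδy, hδu, hδv]
      obtain ⟨xu, hxu⟩ : ∃ xu, xu = (F.d ω' u - F.d ω u) -
        au (ptr F J ω) * (F.d ω' y - F.d ω y) := ⟨_, rfl⟩
      obtain ⟨xv, hxv⟩ : ∃ xv, xv = (F.d ω' v - F.d ω v) -
        θp (ptr F J ω) * (F.d ω' u - F.d ω u) - bv (ptr F J ω) * (F.d ω' y - F.d ω y) := ⟨_, rfl⟩
      rw [← hxu] at hu
      rw [← hxv] at hv
      have e1 : ((F.d ω' u - F.d ω u) - au (ptr F J ω) * (F.d ω' y - F.d ω y) -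
          F.d ω u * 0 - au (ptr F J ω) * (0 - F.d ω y * 0)) = xu := by
        rw [hxu]
        ring
      have e2 : ((F.d ω' v - F.d ω v) - (bv (ptr F J ω) + θp (ptr F J ω) * au (ptr F J ω)) *
          (F.d ω' y - F.d ω y) - F.d ω v * 0 - θp (ptr F J ω) *
          ((F.d ω' u - F.d ω u) - au (ptr F J ω) * (F.d ω' y - F.d ω y) - F.d ω u * 0) -
          bv (ptr F J ω) * (0 - F.d ω y * 0)) = xv := by
        rw [hxv]
        ring
      rw [e1, e2]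
      obtain ⟨HU, hHU⟩ : ∃ HU, HU = hs (G (z (ptr F J ω))) (dpt (ptr F J ω))
        (aU • eu u v (θp (ptr F J ω))) W := ⟨_, rfl⟩
      obtain ⟨HV, hHV⟩ : ∃ HV, HV = hs (G (z (ptr F J ω))) (dpt (ptr F J ω)) (aD • ev v) W :=
        ⟨_, rfl⟩
      rw [← hHU] at h1 ⊢
      rw [← hHV] at h2 ⊢
      have c1 : |xu / aU| ≤ 2 * (1 / 2 ^ c) := by
        rw [abs_div, abs_of_pos hU0, div_le_iff₀ hU0]
        refine hu.trans (le_of_eq ?_)
        ring
      have c2 : |xv / aD| ≤ 2 * (1 / 2 ^ c) := by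
        rw [abs_div, abs_of_pos hD0, div_le_iff₀ hD0]
        refine hv.trans (le_of_eq ?_)
        ring
      have k1 := mul_le_mul c1 h1 (by positivity) (by positivity)
      have k2 := mul_le_mul c2 h2 (by positivity) (by positivity)
      have e3 : (1 / 2 ^ w) ^ 2 * (0 * hs (G (z (ptr F J ω))) (dpt (ptr F J ω)) (bd F ω) W +
          (0 - F.d ω y * 0) * hs (G (z (ptr F J ω))) (dpt (ptr F J ω)) (svc (sl3 y u v
            (au (ptr F J ω)) (bv (ptr F J ω) + θp (ptr F J ω) * au (ptr F J ω)))) W +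
          xu / aU * HU + xv / aD * HV) =
          xu / aU * ((1 / 2 ^ w) ^ 2 * HU) + xv / aD * ((1 / 2 ^ w) ^ 2 * HV) := by ring
      rw [e3]
      have k3 : |xu / aU * ((1 / 2 ^ w) ^ 2 * HU)| ≤ 2 * (1 / 2 ^ c) * (1 / 2 ^ s) := by
        rw [abs_mul, abs_mul ((1 / 2 ^ w) ^ 2), abs_of_pos hpos]
        exact k1
      have k4 : |xv / aD * ((1 / 2 ^ w) ^ 2 * HV)| ≤ 2 * (1 / 2 ^ c) * (1 / 2 ^ s) := by
        rw [abs_mul, abs_mul ((1 / 2 ^ w) ^ 2), abs_of_pos hpos]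
        exact k2
      refine (abs_add_le _ _).trans ((add_le_add k3 k4).trans ?_)
      have e4 : 2 * ((1 : ℝ) / 2 ^ c) * (1 / 2 ^ s) + 2 * (1 / 2 ^ c) * (1 / 2 ^ s) =
          2 ^ 2 / 2 ^ (s + c) := by
        rw [pow_add]
        field_simp
        norm_num
      rw [e4]
      exact two 2 (s + c) R' (by omega)
    refine ⟨key _ ?_ ?_, key _ ?_ ?_⟩
    · exact hb 2 2
    · exact hb 3 2
    · exact hb 2 3
    · exact hb 3 3
  · have h1 := hcm ω ω (hA' ω hω) (hA' ω hω) rfl 0 j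
    rw [abs_sub_comm]
    refine h1.trans (inv_mono (by omega))
  · have hωA := hA' ω hω
    have h1 := cmp_dd hyu hyv huv (hlab.dep (z (ptr F J ω))) (hnd.hbu ω hωA).1 (hnd.hbv ω hωA).1
      (hθ ω hωA) hU0 hU1 hD0 hκ0.le hκ1 hκU hκD (npt_dpt F hw ω) (c := bt F ω)
      (fun j => dl_bt F hw ω j) (by
        rw [dpt_none]
        rfl) (W := nd4 F y u v (au (ptr F J ω)) (bv (ptr F J ω)) (θp (ptr F J ω)) aU aD ω j)
      (H := 1 / 2 ^ s) (fun x hx i => hN2 ω hωA x hx i j)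
    exact h1.trans (mul_le_mul_of_nonneg_left hs1 (by positivity))
  · have hωA := hA' ω hω
    rw [hlab.cls ω hωA]
    exact hlab.lip ω hωA _ (fun o => (dpt_near F ω o).trans (inv_mono hρ)) o

end Pool.JVE.R6
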