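import Pool.Agent.H6.AFR.Cfr
import Pool.Agent.H62.AFN.Hnc

/-!
# All second derivatives on the natural box from two labels

`hn_far`, `up_clr`: as `hn_fam`, `up_cls`, for all pairs of natural directions.
-/

set_option autoImplicit false

namespace Pool.JVE.R6

open Finset MvPolynomial
open Pool.Agent.H49.Ent Pool.Agent.H32.Dense Pool.STK Pool.KA Pool.KSAT Pool.K2S Pool.PB Pool.GEN
open Pool.S6C
open Pool.BFL (Pb)
open Pool.GRW (xr xr_near Cm one_le_Cm tmc_bas bas_part)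
open Pool.LA91 (FulC)
open Pool.MIC6 (mvp wt wp wpt wp_eq)
open Pool.PB.Trl (rt rt_mem t_rt)
open Pool.D2R (hs dd der_curve hs_comm hs_add_left hs_add_right hs_smul_left hs_smul_right)

variable {m J : ℕ}

/-- **The second derivatives on the natural box.** -/
theorem hn_ofa (K : ℕ) : ∃ C : ℝ, 1 ≤ C ∧ ∀ {m J : ℕ} (F : Fam m J) {w : ℕ} (_ : w ≤ J)
    {y u v : Fin m} (_ : y ≠ u) (_ : y ≠ v) (_ : u ≠ v) {a b t aU aD : ℝ} {ω : F.Ω}
    (_ : 0 ≤ aU) (_ : 0 ≤ aD) {G A₀ : MvPolynomial (Option (Fin m)) ℝ} {S : ℝ},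
    G.totalDegree ≤ K → A₀.totalDegree ≤ 1 →
    (∀ x, NBR F w y u v a b t aU aD 5 ω x → |eval x (G - A₀)| ≤ S) →
    ∀ x, NB3 F w y u v a b t aU aD ω x → ∀ i l,
      (1 / 2 ^ w) ^ 2 * |hs G x (nd4 F y u v a b t aU aD ω i)
        (nd4 F y u v a b t aU aD ω l)| ≤ C * S := by
  classical
  obtain ⟨C, hC, h⟩ := hs_sup (max K 1)
  refine ⟨C, hC, ?_⟩
  intro m J F w hw y u v hyu hyv huv a b t aU aD ω hU hD G A₀ S hG hA₀ hS x hx i
  have pw : (0 : ℝ) < 1 / 2 ^ w := by positivity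
  have hx3 := hx.nbr hw hU hD
  have hdeg : (G - A₀).totalDegree ≤ max K 1 :=
    (totalDegree_sub _ _).trans (max_le_max hG hA₀)
  have key : ∀ l, (1 / 2 ^ w) ^ 2 * |hs G x (nd4 F y u v a b t aU aD ω i)
      (nd4 F y u v a b t aU aD ω l)| ≤ C * S := by
    intro l
    have e1 : (1 / 2 ^ w) ^ 2 * |hs G x (nd4 F y u v a b t aU aD ω i)
        (nd4 F y u v a b t aU aD ω l)| =
        |hs (G - A₀) x ((1 / 2 ^ w : ℝ) • nd4 F y u v a b t aU aD ω i)
          ((1 / 2 ^ w : ℝ) • nd4 F y u v a b t aU aD ω l)| := by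
      have e2 : ∀ V W, hs (G - A₀) x V W = hs G x V W := by
        intro V W
        rw [Pool.D2R.hs_sub, hs_aff hA₀, sub_zero]
      rw [e2, hs_smul_left, hs_smul_right, abs_mul, abs_mul, abs_of_pos pw]
      ring
    rw [e1]
    refine h _ x _ _ S hdeg fun s hs' => ?_
    have hcmb : ∀ ε : ℝ, |ε| ≤ 1 → x + s • ((1 / 2 ^ w : ℝ) • nd4 F y u v a b t aU aD ω i +
        ε • ((1 / 2 ^ w : ℝ) • nd4 F y u v a b t aU aD ω l)) =
        x + cmb F y u v a b t aU aD ω (fun j => s * (1 / 2 ^ w) * ((if j = i then 1 else 0) +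
          ε * (if j = l then 1 else 0))) := by
      intro ε _
      congr 1
      unfold cmb
      have e4 : ∀ j, (s * (1 / 2 ^ w) * ((if j = i then (1 : ℝ) else 0) +
          ε * (if j = l then 1 else 0))) • nd4 F y u v a b t aU aD ω j =
          (if j = i then (s * (1 / 2 ^ w)) • nd4 F y u v a b t aU aD ω j else 0) +
          (if j = l then (s * (1 / 2 ^ w) * ε) • nd4 F y u v a b t aU aD ω j else 0) := by
        intro j
        split_ifs <;> simp [mul_add, add_smul]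
      rw [Finset.sum_congr rfl fun j _ => e4 j, Finset.sum_add_distrib, Finset.sum_ite_eq',
        Finset.sum_ite_eq', if_pos (Finset.mem_univ _), if_pos (Finset.mem_univ _), smul_add,
        smul_smul, smul_smul, smul_smul]
      congr 2
      ring
    have hbox : ∀ ε : ℝ, |ε| ≤ 1 → NBR F w y u v a b t aU aD 5 ω
        (x + s • ((1 / 2 ^ w : ℝ) • nd4 F y u v a b t aU aD ω i +
          ε • ((1 / 2 ^ w : ℝ) • nd4 F y u v a b t aU aD ω l))) := by
      intro ε hε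
      rw [hcmb ε hε]
      have e5 : (5 : ℝ) = 3 + 2 := by norm_num
      rw [e5]
      refine hx3.cmb hyu hyv huv hU hD fun j => ?_
      rw [abs_mul, abs_mul, abs_of_nonneg hs'.1, abs_of_pos pw]
      have e6 : |(if j = i then (1 : ℝ) else 0) + ε * (if j = l then 1 else 0)| ≤ 2 := by
        refine (abs_add_le _ _).trans ?_
        have h7 : |(if j = i then (1 : ℝ) else 0)| ≤ 1 := by
          split_ifs
          · rw [abs_one]
          · rw [abs_zero]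
            norm_num
        have h8 : |ε * (if j = l then (1 : ℝ) else 0)| ≤ 1 := by
          split_ifs
          · rw [mul_one]
            exact hε
          · rw [mul_zero, abs_zero]
            norm_num
        linarith
      have e7 : (2 : ℝ) / 2 ^ w = 1 * (1 / 2 ^ w) * 2 := by ring
      rw [e7]
      exact mul_le_mul (mul_le_mul_of_nonneg_right hs'.2 pw.le) e6 (abs_nonneg _) (by positivity)
    have h1 := hbox 1 (by rw [abs_one])
    have h2 := hbox (-1) (by rw [abs_neg, abs_one])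
    rw [one_smul] at h1
    exact ⟨hS _ h1, hS _ h2⟩
  exact key

/-- **The second derivatives on the natural box from two labels.** -/
theorem hn_far (m K : ℕ) (hK : 1 ≤ K) : ∃ C : ℝ, 1 ≤ C ∧ ∀ {J : ℕ} (F : Fam m J)
    (B : F.Ω → Prop) (_ : 0 < Pe F.p B) {c : ℕ → Fin m} (_ : Set.InjOn c (Set.Iio 3)) {k : Fin m}
    {w n₂ n L e nU nD gU gD E₁ E₂ ρ₁ ρ₂ PG P : ℕ} {V : Type} {z : PtT F → V} {z' : LnT F → V}
    {G : V → MvPolynomial (Option (Fin m)) ℝ} {V₀ : Type} {z₀ : PtT F → V₀} {z₀' : LnT F → V₀}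
    {G₀ : V₀ → MvPolynomial (Option (Fin m)) ℝ} {au cu bv cv θp : PtT F → ℝ}
    {θs ju jv : LnT F → ℝ} {κ θf θt γ : ℝ} {zu zv : PtT F → (Fin (m + 1) → ℤ) × ℤ}
    {zu' zv' : LnT F → (Fin (m + 1) → ℤ) × ℤ},
    LbOK F {c 0, c 1, c 2} k K E₁ J w ρ₁ PG B z z' G →
    LbOK F {c 0, c 1, c 2} k 1 E₂ J w ρ₂ P B z₀ z₀' G₀ → ρ₁ ≤ J → ρ₂ ≤ J →
    PG + E₁ + m + 3 ≤ J → P + E₂ + m + 3 ≤ J →
    ND F B (c 0) (c 1) (c 2) w e au cu bv cv θp θs ju jv (1 / 2 ^ nU) (1 / 2 ^ nD) κ →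
    LbOK F {c 0} (c 1) 1 (e + 1) J w 0 gU B zu zu' (afz {c 0} w nU) →
    LbOK F {c 0, c 1} (c 2) 1 (e + 1) J w 0 gD B zv zv' (afz {c 0, c 1} w nD) →
    (∀ ω, B ω → |((zu' (slam F w ω)).1 (c 0).castSucc : ℝ) / 2 ^ nU - au (ptr F J ω)| ≤
      1 / 2 ^ nU) →
    (∀ ω, B ω → |((zv' (slam F w ω)).1 (c 0).castSucc : ℝ) / 2 ^ nD - bv (ptr F J ω)| ≤
      1 / 2 ^ nD ∧ |((zv' (slam F w ω)).1 (c 1).castSucc : ℝ) / 2 ^ nD - θp (ptr F J ω)| ≤
      1 / 2 ^ nD) → w ≤ n₂ → n₂ + L ≤ J → gU + (e + 1) + m + 4 + L ≤ J →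
    gD + (e + 1) + m + 4 + L ≤ J → gU ≤ w + nU → gD ≤ w + nD → n₂ + 4 ≤ n + w → e + 6 ≤ n →
    0 ≤ θf → 0 ≤ θt →
    (L : ℝ) * Real.log 2 - θt ≤
      CH (Pool.Agent.H49.Ent.cond F.p B True) (F.T1 (n₂ + L)) (slam F n₂) →
    (∀ (X : Type) (x : PtT F → X) (x' : LnT F → X),
      (∀ ω, B ω → x (ptr F J ω) = x' (slam F w ω)) →
      ((1 : ℕ) : ℝ) * (((J : ℝ) - n₂) * Real.log 2) - θt ≤
        CH (Pool.Agent.H49.Ent.cond F.p B True) (fun ω (l : Fin 1) => F.X J ω (c l))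
          (fun ω => ((fun l : Fin 1 => F.X n₂ ω (c l)), x' (slam F w ω), F.W ω))) →
    (∀ (X : Type) (x : PtT F → X) (x' : LnT F → X),
      (∀ ω, B ω → x (ptr F J ω) = x' (slam F w ω)) →
      ((J : ℝ) - gU) * Real.log 2 - θf ≤
        CH (Pool.Agent.H49.Ent.cond F.p B True) (fun ω => F.X J ω (c 1))
          (fun ω => ((fun l' : Fin 1 => F.X J ω (c l')), x' (slam F w ω), F.W ω)) ∧
      ((J : ℝ) - gD) * Real.log 2 - θf ≤
        CH (Pool.Agent.H49.Ent.cond F.p B True) (fun ω => F.X J ω (c 2))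
          (fun ω => ((fun l' : Fin 2 => F.X J ω (c l')), x' (slam F w ω), F.W ω))) →
    Cm 4 K * (θf + 5) * 1024 ≤ γ → Cm 4 K * (θt + 7) * 1024 ≤ γ → γ ≤ L * Real.log 2 →
    ∃ B' : F.Ω → Prop, Sub B' B ∧ Pe F.p B ≤ 2 * Pe F.p B' ∧
      HA F B' w (c 0) (c 1) (c 2) au bv θp (1 / 2 ^ nU) (1 / 2 ^ nD) z G
        (C * 2 ^ (n * K) * Real.exp (4 * γ) * (1 / 2 ^ PG + 1 / 2 ^ P)) := by
  classical
  obtain ⟨C₁, hC₁, hhn⟩ := hn_ofa K
  obtain ⟨C₂, hC₂, hbr⟩ := box_ray K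
  refine ⟨2 * (C₁ * C₂), by
    have := one_le_mul_of_one_le_of_one_le hC₁ hC₂
    linarith, ?_⟩
  intro J F B hB c hc k w n₂ n L e nU nD gU gD E₁ E₂ ρ₁ ρ₂ PG P V z z' G V₀ z₀ z₀' G₀ au cu bv cv
    θp θs ju jv κ θf θt γ zu zv zu' zv' hG hG₀ hρ₁ hρ₂ nG nG₀ hnd hu hv cu0 cv0 hw2 hL hLU hLD hgU
    hgD hn hne hθf hθt htime hbase hfull hγf hγt hγL
  have h01 : c 0 ≠ c 1 := fun h => by
    have := hc (show (0 : ℕ) < 3 by norm_num) (show (1 : ℕ) < 3 by norm_num) h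
    omega
  have h02 : c 0 ≠ c 2 := fun h => by
    have := hc (show (0 : ℕ) < 3 by norm_num) (show (2 : ℕ) < 3 by norm_num) h
    omega
  have h12 : c 1 ≠ c 2 := fun h => by
    have := hc (show (1 : ℕ) < 3 by norm_num) (show (2 : ℕ) < 3 by norm_num) h
    omega
  have im1 : (range 1).image c = {c 0} := by
    ext x
    simp
  have im2 : (range 2).image c = {c 0, c 1} := by
    ext x
    simp only [Finset.mem_image, Finset.mem_range, Finset.mem_insert, Finset.mem_singleton]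
    constructor
    · rintro ⟨a, ha, rfl⟩
      interval_cases a
      · exact Or.inl rfl
      · exact Or.inr rfl
    · rintro (rfl | rfl)
      · exact ⟨0, by norm_num, rfl⟩
      · exact ⟨1, by norm_num, rfl⟩
  have hwJ : w ≤ J := by omega
  have hq := isLaw_cond F.isLaw hB
  have hqB : ∀ ω, 0 < Pool.Agent.H49.Ent.cond F.p B True ω → B ω := fun ω hω =>
    Pool.LA91.of_cond_pos hω
  -- the tuple
  obtain ⟨y, hy⟩ : ∃ y : PtT F → (((Fin (m + 1) → ℤ) × ℤ) × ((Fin (m + 1) → ℤ) × ℤ)) × (V × V₀),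
    y = fun a => ((zu a, zv a), (z a, z₀ a)) := ⟨_, rfl⟩
  obtain ⟨y', hy'⟩ : ∃ y' : LnT F → (((Fin (m + 1) → ℤ) × ℤ) × ((Fin (m + 1) → ℤ) × ℤ)) ×
    (V × V₀), y' = fun a => ((zu' a, zv' a), (z' a, z₀' a)) := ⟨_, rfl⟩
  have hycl : ∀ ω, B ω → y (ptr F J ω) = y' (slam F w ω) := by
    intro ω hω
    rw [hy, hy']
    show ((zu (ptr F J ω), zv (ptr F J ω)), (z (ptr F J ω), z₀ (ptr F J ω))) = _
    rw [hu.cls ω hω, hv.cls ω hω, hG.cls ω hω, hG₀.cls ω hω]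
  obtain ⟨GG, hGG⟩ : ∃ GG : (((Fin (m + 1) → ℤ) × ℤ) × ((Fin (m + 1) → ℤ) × ℤ)) × (V × V₀) →
      ℕ → MvPolynomial (Option (Fin m)) ℝ, GG = fun x i =>
      if i = 1 then afz {c 0} w nU x.1.1 else afz {c 0, c 1} w nD x.1.2 := ⟨_, rfl⟩
  obtain ⟨D, hD⟩ : ∃ D : (((Fin (m + 1) → ℤ) × ℤ) × ((Fin (m + 1) → ℤ) × ℤ)) × (V × V₀) →
      MvPolynomial (Option (Fin m)) ℝ, D = fun x => G x.2.1 - G₀ x.2.2 := ⟨_, rfl⟩
  have hg1 : ∀ x, GG x 1 = afz {c 0} w nU x.1.1 := fun x => by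
    rw [hGG]
    exact if_pos rfl
  have hg2 : ∀ x, GG x 2 = afz {c 0, c 1} w nD x.1.2 := fun x => by
    rw [hGG]
    exact if_neg (by norm_num)
  have hDe : ∀ a, D (y' a) = G (z' a) - G₀ (z₀' a) := fun a => by rw [hD, hy']
  obtain ⟨τ, hτ⟩ : ∃ τ : ℝ, τ = 2 * (1 / 2 ^ PG + 1 / 2 ^ P) := ⟨_, rfl⟩
  have hτ0 : 0 < τ := by rw [hτ]; positivity
  have hγ0 : 0 ≤ γ := le_trans (by
    have := one_le_Cm 4 K
    positivity) hγf
  have h8 : (8 : ℝ) ^ 3 / (1 / 2) = 1024 := by norm_num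
  have h3r : ((3 : ℕ) : ℝ) = 3 := by norm_num
  have key := Pool.LA91.nbx_fam (r₀ := 1) (r := 3) (by norm_num) (F := F) (A := B) hq hqB
    (c := c) hc (K := fun _ => 1) (e := fun _ => e + 1) (ρ := fun _ => 0)
    (g := fun i => if i = 1 then gU else gD) (M := fun _ => K) (w := w) (u := n₂) (L := L)
    (KD := K) (Mt := K) (z := y) (z' := y') (G := GG) (D := D)
    (fun i hi hi' => by
      have h1 : i = 1 ∨ i = 2 := by omega
      rcases h1 with rfl | rfl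
      · rw [im1, if_pos rfl]
        refine ⟨fun v => by rw [hg1]; exact hu.deg _, fun v => by rw [hg1]; exact hu.dep _, hycl,
          fun ω hω => ?_, fun ω hω => ?_, fun ω hω => ?_⟩
        · rw [hg1, hy']
          exact hu.pos ω hω
        · rw [hg1, hy']
          exact hu.vel ω hω
        · rw [hg1, hy']
          exact hu.lip ω hω
      · rw [im2, if_neg (by norm_num)]
        refine ⟨fun v => by rw [hg2]; exact hv.deg _, fun v => by rw [hg2]; exact hv.dep _, hycl,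
          fun ω hω => ?_, fun ω hω => ?_, fun ω hω => ?_⟩
        · rw [hg2, hy']
          exact hv.pos ω hω
        · rw [hg2, hy']
          exact hv.vel ω hω
        · rw [hg2, hy']
          exact hv.lip ω hω)
    (fun _ _ _ => Nat.zero_le _) (fun v => by
      rw [hD]
      exact (totalDegree_sub _ _).trans (max_le (hG.deg _) ((hG₀.deg _).trans hK)))
    (fun v b₁ b₂ hb hbb => by
      rw [hD]
      have e1 : ∀ i ∈ ({c 0, c 1, c 2} : Finset (Fin m)), b₁ (some i) = b₂ (some i) := by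
        intro i hi
        simp only [Finset.mem_insert, Finset.mem_singleton] at hi
        rcases hi with rfl | rfl | rfl
        · exact hbb 0 (by norm_num)
        · exact hbb 1 (by norm_num)
        · exact hbb 2 (by norm_num)
      show eval b₁ (G v.2.1 - G₀ v.2.2) = eval b₂ (G v.2.1 - G₀ v.2.2)
      rw [map_sub, map_sub, hG.dep _ b₁ b₂ hb e1, hG₀.dep _ b₁ b₂ hb e1])
    hw2 hL (fun i hi hi' => by
      show (if i = 1 then gU else gD) + (e + 1) + m + 2 + L ≤ J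
      split_ifs <;> omega)
    (fun _ _ _ _ _ => hK) (fun _ => le_rfl) (fun _ _ _ => hK) le_rfl
    (θ := fun _ => θf) (fun _ => hθf) (θt := θt) (θb := θt) hθt hθt htime
    (hbase _ y y' hycl) (fun i hi hi' => by
      have h1 : i = 1 ∨ i = 2 := by omega
      rcases h1 with rfl | rfl
      · exact (hfull _ y y' hycl).1
      · exact (hfull _ y y' hycl).2)
    (τ := τ) (η := 1 / 2) (γ := γ) (by norm_num) (by norm_num) hτ0 (fun _ _ _ => by
      rw [h8]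
      exact hγf) (by
      rw [h8, h3r]
      refine le_trans (le_of_eq ?_) hγt
      ring) (by
      rw [h8, h3r]
      refine le_trans (le_of_eq ?_) hγt
      ring) hγL (fun ω hω => by
      rw [hDe, map_sub]
      have k1 := xr_val hG hρ₁ hω
      have k2 := xr_val hG₀ hρ₂ hω
      have k3 := hG.pos ω hω
      have k4 := hG₀.pos ω hω
      have k5 := num_xr (m := m) (J := J) (e := E₁) (P := PG) nG
      have k6 := num_xr (m := m) (J := J) (e := E₂) (P := P) nG₀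
      have p1 : (0 : ℝ) < 1 / 2 ^ PG := by positivity
      have p2 : (0 : ℝ) < 1 / 2 ^ P := by positivity
      have k7 := k1.trans k5
      have k8 := k2.trans k6
      rw [hτ]
      rw [abs_le] at k3 k4 k7 k8 ⊢
      constructor <;> linarith [k3.1, k3.2, k4.1, k4.2, k7.1, k7.2, k8.1, k8.2])
  -- the event
  obtain ⟨B', hB'⟩ : ∃ B' : F.Ω → Prop, B' = fun ω => B ω ∧ ∀ x : Option (Fin m) → ℝ,
      |x none - F.t ω| ≤ 1 / 2 ^ n₂ →
      (∀ l < 1, |x (some (c l)) - xr F ω (some (c l))| ≤ 1 / 2 ^ n₂) →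
      (∀ i, 1 ≤ i → i < 3 → |x (some (c i)) - eval x (GG (y' (slam F w ω)) i)| ≤
        2 / 2 ^ (if i = 1 then gU else gD)) →
      |eval x (D (y' (slam F w ω)))| ≤ Real.exp (4 * γ) * τ := ⟨_, rfl⟩
  have hB'B : Sub B' B := fun ω hω => by
    rw [hB'] at hω
    exact hω.1
  refine ⟨B', hB'B, ?_, ?_⟩
  · rw [Pool.LA91.Pb_cond hB, div_le_iff₀ hB] at key
    have h1 := pe_or F.isLaw (A := B) (B₀ := B') (B₁ := fun ω => B ω ∧
      ¬ ∀ x : Option (Fin m) → ℝ, |x none - F.t ω| ≤ 1 / 2 ^ n₂ →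
      (∀ l < 1, |x (some (c l)) - xr F ω (some (c l))| ≤ 1 / 2 ^ n₂) →
      (∀ i, 1 ≤ i → i < 3 → |x (some (c i)) - eval x (GG (y' (slam F w ω)) i)| ≤
        2 / 2 ^ (if i = 1 then gU else gD)) →
      |eval x (D (y' (slam F w ω)))| ≤ Real.exp ((((3 : ℕ) : ℝ) + 1) * γ) * τ) (fun ω hω => by
        by_cases h2 : B' ω
        · exact Or.inl h2
        · refine Or.inr ⟨hω, fun h3 => h2 ?_⟩
          rw [hB']
          refine ⟨hω, fun x a1 a2 a3 => (h3 x a1 a2 a3).trans (le_of_eq ?_)⟩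
          norm_num)
    linarith
  · intro ω hω x hx i j
    have hωB := hB'B ω hω
    rw [hB'] at hω
    obtain ⟨-, hω⟩ := hω
    have pU : (0 : ℝ) < 1 / 2 ^ nU := by positivity
    have pD : (0 : ℝ) < 1 / 2 ^ nD := by positivity
    rw [hG.cls ω hωB]
    have hchu : afz {c 0} w nU (zu' (slam F w ω)) = afI {c 0}
      (((zu' (slam F w ω)).2 : ℝ) / 2 ^ (w + nU))
      (((zu' (slam F w ω)).1 (Fin.last m) : ℝ) / 2 ^ nU)
      (fun k => ((zu' (slam F w ω)).1 k.castSucc : ℝ) / 2 ^ nU) := rfl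
    have hchv : afz {c 0, c 1} w nD (zv' (slam F w ω)) = afI {c 0, c 1}
      (((zv' (slam F w ω)).2 : ℝ) / 2 ^ (w + nD))
      (((zv' (slam F w ω)).1 (Fin.last m) : ℝ) / 2 ^ nD)
      (fun k => ((zv' (slam F w ω)).1 k.castSucc : ℝ) / 2 ^ nD) := rfl
    have pe : (1 : ℝ) ≤ 2 ^ e := one_le_pow₀ (by norm_num)
    have hgUp : (1 : ℝ) / 2 ^ w * (1 / 2 ^ nU) ≤ 1 / 2 ^ gU := by
      have h1 : (1 : ℝ) / 2 ^ w * (1 / 2 ^ nU) = 1 / 2 ^ (w + nU) := by
        rw [pow_add]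
        field_simp
      rw [h1]
      exact Pool.PB.inv_mono hgU
    have hgDp : (1 : ℝ) / 2 ^ w * (1 / 2 ^ nD) ≤ 1 / 2 ^ gD := by
      have h1 : (1 : ℝ) / 2 ^ w * (1 / 2 ^ nD) = 1 / 2 ^ (w + nD) := by
        rw [pow_add]
        field_simp
      rw [h1]
      exact Pool.PB.inv_mono hgD
    have hn5 : (2 : ℝ) ^ e * 32 ≤ 2 ^ n / 2 := by
      rw [le_div_iff₀ (by norm_num)]
      calc (2 : ℝ) ^ e * 32 * 2 = 2 ^ (e + 6) := by rw [pow_add]; ring
        _ ≤ 2 ^ n := pow_le_pow_right₀ (by norm_num) hne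
    have le1 : ∀ a : ℕ, (1 : ℝ) / 2 ^ a ≤ 1 := fun a => by
      rw [div_le_one (by positivity)]
      exact one_le_pow₀ (by norm_num)
    obtain ⟨δU, hδU⟩ : ∃ δU : ℝ, δU = 1 / 2 ^ gU := ⟨_, rfl⟩
    obtain ⟨δD, hδD⟩ : ∃ δD : ℝ, δD = 1 / 2 ^ gD := ⟨_, rfl⟩
    have pδU : 0 < δU := by rw [hδU]; positivity
    have pδD : 0 < δD := by rw [hδD]; positivity
    have hdg : (G (z' (slam F w ω)) - G₀ (z₀' (slam F w ω))).totalDegree ≤ K :=
      (totalDegree_sub _ _).trans (max_le (hG.deg _) ((hG₀.deg _).trans hK))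
    have hxr : ∀ {I : Finset (Fin m)} {j : Fin m} {g : ℕ} {zz : PtT F → (Fin (m + 1) → ℤ) × ℤ}
        {zz' : LnT F → (Fin (m + 1) → ℤ) × ℤ} {M : ℕ},
        LbOK F I j 1 (e + 1) J w 0 g B zz zz' (afz I w M) → g + (e + 1) + m + 4 + L ≤ J →
        |xr F ω (some j) - eval (xr F ω) (afz I w M (zz' (slam F w ω)))| ≤ 3 / 2 / 2 ^ g := by
      intro I j g zz zz' M hlab hg
      have k1 := hlab.pos ω hωB
      have k2 := xr_near F ω (some j)
      have k3 := (xr_val hlab (Nat.zero_le _) hωB).trans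
        (num_xr (m := m) (J := J) (e := e + 1) (P := g) (by omega))
      have k4 : (1 : ℝ) / 2 ^ J ≤ 1 / 4 * (1 / 2 ^ g) := by
        have h1 : (1 : ℝ) / 4 * (1 / 2 ^ g) = 1 / 2 ^ (g + 2) := by
          rw [pow_add]
          field_simp
          norm_num
        rw [h1]
        exact Pool.PB.inv_mono (by omega)
      have e1 : (3 : ℝ) / 2 / 2 ^ g = 3 / 2 * (1 / 2 ^ g) := by ring
      have e2 : bt F ω (some j) = F.x ω j := rfl
      rw [e2] at k2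
      rw [e1]
      have p1 : (0 : ℝ) < 1 / 2 ^ g := by positivity
      rw [abs_le] at k1 k2 k3 ⊢
      constructor <;> linarith [k1.1, k1.2, k2.1, k2.2, k3.1, k3.2]
    have hpu := hxr hu hLU
    have hpv := hxr hv hLD
    rw [hchu] at hpu
    rw [hchv] at hpv
    have vu := hu.vel ω hωB
    have vv := hv.vel ω hωB
    have pu := hu.pos ω hωB
    have pv := hv.pos ω hωB
    rw [hchu, sum_afI, Finset.sum_singleton] at vu
    rw [hchv, sum_afI, Finset.sum_pair h01] at vv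
    rw [hchu] at pu
    rw [hchv] at pv
    have hau := (hnd.hbu ω hωB).1
    have h1 : ∀ q, NBR F w (c 0) (c 1) (c 2) (au (ptr F J ω)) (bv (ptr F J ω)) (θp (ptr F J ω))
        (1 / 2 ^ nU) (1 / 2 ^ nD) 5 ω q → |eval q (G (z' (slam F w ω)) - G₀ (z₀' (slam F w ω)))| ≤
          C₂ * 2 ^ (n * K) * (Real.exp (4 * γ) * τ) := by
      refine hbr F (n₂ := n₂) (gU := gU) (gD := gD) hwJ hdg hpu hpv (fun q hq => ?_)
        (fun q hq => ?_) hn (fun x a1 a2 a3 a4 => ?_)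
      · have k1 := cht_u (R := 5) (by norm_num) pu (by
          refine vu.trans (le_of_eq ?_)
          ring) (cu0 ω hωB) hq.tm hq.ny hq.nu
        refine k1.trans ?_
        have e1 : (1 : ℝ) / 2 ^ gU + 5 * (1 / 2 ^ gU) + 5 / 2 ^ w * (1 / 2 ^ nU) +
            1 / 2 ^ nU * (5 / 2 ^ w) = 6 * δU + 10 * (1 / 2 ^ w * (1 / 2 ^ nU)) := by
          rw [hδU]
          ring
        have e2 : (2 : ℝ) ^ n / 2 / 2 ^ gU = 2 ^ n / 2 * δU := by
          rw [hδU]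
          ring
        rw [e1, e2]
        have k2 : (2 : ℝ) ^ e * 32 * δU ≤ 2 ^ n / 2 * δU := mul_le_mul_of_nonneg_right hn5 pδU.le
        have k3 : 1 * (32 * δU) ≤ 2 ^ e * (32 * δU) :=
          mul_le_mul_of_nonneg_right pe (by positivity)
        rw [← hδU] at hgUp
        linarith
      · have k1 := cht_v h01 (R := 5) (by norm_num) pv (by
          refine vv.trans (le_of_eq ?_)
          ring) (cv0 ω hωB).1 (cv0 ω hωB).2 hau hq.tm hq.ny hq.nu hq.nv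
        refine k1.trans ?_
        have e1 : (1 : ℝ) / 2 ^ gD + 5 * (1 / 2 ^ gD) + 5 / 2 ^ w * (1 / 2 ^ nD) +
            1 / 2 ^ nD * (5 / 2 ^ w * (1 / 2 ^ nU) + 2 ^ e * (5 / 2 ^ w)) +
            1 / 2 ^ nD * (5 / 2 ^ w) = 6 * δD + (10 + 5 * (1 / 2 ^ nU) + 5 * 2 ^ e) *
              (1 / 2 ^ w * (1 / 2 ^ nD)) := by
          rw [hδD]
          ring
        have e2 : (2 : ℝ) ^ n / 2 / 2 ^ gD = 2 ^ n / 2 * δD := by
          rw [hδD]
          ring
        rw [e1, e2]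
        rw [← hδD] at hgDp
        have k2 : (2 : ℝ) ^ e * 32 * δD ≤ 2 ^ n / 2 * δD := mul_le_mul_of_nonneg_right hn5 pδD.le
        have k3 : (10 + 5 * (1 / 2 ^ nU) + 5 * 2 ^ e) * (1 / 2 ^ w * (1 / 2 ^ nD)) ≤
            (20 * 2 ^ e) * δD := by
          refine mul_le_mul ?_ hgDp (by positivity) (by positivity)
          have := le1 nU
          linarith
        have k4 : 1 * (6 * δD) ≤ 2 ^ e * (6 * δD) := mul_le_mul_of_nonneg_right pe (by positivity)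
        have k5 : 0 < 2 ^ e * δD := by positivity
        linarith
      · have k1 := hω x a1 (fun l hl => by
          have : l = 0 := by omega
          rw [this]
          exact a2) (fun i hi hi' => by
          have h1 : i = 1 ∨ i = 2 := by omega
          rcases h1 with rfl | rfl
          · rw [hg1, hy', if_pos rfl]
            exact a3
          · rw [hg2, hy', if_neg (by norm_num)]
            exact a4)
        rw [hDe] at k1
        exact k1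
    have h2 := hhn F hwJ h01 h02 h12 pU.le pD.le (hG.deg _) (hG₀.deg _) h1 x hx i j
    have e1 : C₁ * (C₂ * 2 ^ (n * K) * (Real.exp (4 * γ) * τ)) = 2 * (C₁ * C₂) * 2 ^ (n * K) *
        Real.exp (4 * γ) * (1 / 2 ^ PG + 1 / 2 ^ P) := by
      rw [hτ]
      ring
    rw [e1] at h2
    exact h2

/-- **The second derivatives from two labels, in a class.** -/
theorem up_clr {S : PCl m} {C₀ : ℝ} (htm : TmC S C₀) {c : ℕ → Fin m}
    (hc : Set.InjOn c (Set.Iio 3)) {k : Fin m} {W U D x : ℝ} (hW0 : 0 < W) (hx : 0 < x)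
    (hUW : W < U) (hUD : U ≤ D) (hDx : D + x ≤ 1) {s : ℕ → ℝ} (hs1 : s 1 = U) (hs2 : s 2 = D)
    (hbase : ∀ t : ℝ, W < t → t < 1 → Pool.LA91.Ful S {c 0} W t) (hful : FulC S c 1 3 W s)
    (K : ℕ) (hK : 1 ≤ K) {ε : ℝ} (hε : 0 < ε) :
    ∃ e₁ : ℝ, 0 < e₁ ∧ ∀ e₀ : ℝ, 0 < e₀ → e₀ ≤ e₁ → Bas S (fun J F A =>
      ∀ (V : Type) (z : PtT F → V) (z' : LnT F → V) (G : V → MvPolynomial (Option (Fin m)) ℝ)
        (V₀ : Type) (z₀ : PtT F → V₀) (z₀' : LnT F → V₀)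
        (G₀ : V₀ → MvPolynomial (Option (Fin m)) ℝ) (E₁ E₂ ρ₁ ρ₂ PG P : ℕ)
        (au cu bv cv θp : PtT F → ℝ) (θs ju jv : LnT F → ℝ) (κ : ℝ),
        LbOK F {c 0, c 1, c 2} k K E₁ J ⌊W * J⌋₊ ρ₁ PG A z z' G →
        LbOK F {c 0, c 1, c 2} k 1 E₂ J ⌊W * J⌋₊ ρ₂ P A z₀ z₀' G₀ → ρ₁ ≤ J → ρ₂ ≤ J →
        PG + E₁ + m + 3 ≤ J → P + E₂ + m + 3 ≤ J →
        ND F A (c 0) (c 1) (c 2) ⌊W * J⌋₊ ⌊e₀ * J⌋₊ au cu bv cv θp θs ju jv
          (1 / 2 ^ ⌊(U - W - e₀) * J⌋₊) (1 / 2 ^ ⌊(D - W - e₀) * J⌋₊) κ → κ ≤ 1 →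
        ∃ B : F.Ω → Prop, Sub B A ∧ Pe F.p A ≤ 2 * cI m ^ 2 * Pe F.p B ∧
          HA F B ⌊W * J⌋₊ (c 0) (c 1) (c 2) au bv θp (1 / 2 ^ ⌊(U - W - e₀) * J⌋₊)
            (1 / 2 ^ ⌊(D - W - e₀) * J⌋₊) z G (2 ^ ⌊ε * J⌋₊ * (1 / 2 ^ PG + 1 / 2 ^ P))) := by
  classical
  obtain ⟨C, hC, hhn⟩ := hn_far m K hK
  have hK1 : (1 : ℝ) ≤ K := by exact_mod_cast hK
  have hcI : 0 < cI m := cI_pos m
  have h01 : c 0 ≠ c 1 := fun h => by
    have := hc (show (0 : ℕ) < 3 by norm_num) (show (1 : ℕ) < 3 by norm_num) h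
    omega
  have hCm1 := one_le_Cm 4 K
  obtain ⟨Cc, hCc⟩ : ∃ Cc, Cc = Cm 4 K := ⟨_, rfl⟩
  rw [← hCc] at hCm1
  -- the constants
  obtain ⟨χ, hχ⟩ : ∃ χ, χ = x / 4 := ⟨_, rfl⟩
  have hχ0 : 0 < χ := by rw [hχ]; linarith only [hx]
  obtain ⟨γ₀, hγ₀⟩ : ∃ γ₀, γ₀ = min (χ / 4) (ε / 32) := ⟨_, rfl⟩
  have hγ0 : 0 < γ₀ := by rw [hγ₀]; exact lt_min (by linarith only [hχ0]) (by linarith only [hε])
  have hγχ : γ₀ ≤ χ / 4 := by rw [hγ₀]; exact min_le_left _ _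
  have hγε : γ₀ ≤ ε / 32 := by rw [hγ₀]; exact min_le_right _ _
  obtain ⟨φ, hφ⟩ : ∃ φ, φ = γ₀ / (8192 * Cc) := ⟨_, rfl⟩
  have hφ0 : 0 < φ := by rw [hφ]; positivity
  have hφC : 8192 * (Cc * φ) = γ₀ := by
    rw [hφ]
    field_simp
  obtain ⟨o, ho⟩ : ∃ o, o = min (x / 4) (ε / (16 * K)) := ⟨_, rfl⟩
  have ho0 : 0 < o := by
    rw [ho]
    exact lt_min (by linarith only [hx]) (by positivity)
  have hox : o ≤ x / 4 := by rw [ho]; exact min_le_left _ _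
  have hoK : 16 * (o * K) ≤ ε := by
    have h1 : o ≤ ε / (16 * K) := by rw [ho]; exact min_le_right _ _
    rw [le_div_iff₀ (by positivity)] at h1
    linarith only [h1]
  obtain ⟨u₂, hu₂⟩ : ∃ u₂, u₂ = W + o := ⟨_, rfl⟩
  have hu₂1 : u₂ < 1 := by rw [hu₂]; linarith only [hox, hUW, hUD, hDx, hx]
  refine ⟨min (min φ (ε / (16 * K))) ((U - W) / 2), lt_min (lt_min hφ0 (by positivity))
    (by linarith only [hUW]), ?_⟩
  intro e₀ he₀ he₁
  have heφ : e₀ ≤ φ := he₁.trans ((min_le_left _ _).trans (min_le_left _ _))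
  have heK : 16 * (e₀ * K) ≤ ε := by
    have h1 : e₀ ≤ ε / (16 * K) := he₁.trans ((min_le_left _ _).trans (min_le_right _ _))
    rw [le_div_iff₀ (by positivity)] at h1
    linarith only [h1]
  have heU : 2 * e₀ ≤ U - W := by
    have h1 := he₁.trans (min_le_right _ _)
    linarith only [h1]
  have hexC : e₀ ≤ χ := by
    have h1 : φ ≤ γ₀ := by
      have : φ * 1 ≤ Cc * φ := by
        rw [mul_comm Cc]
        exact mul_le_mul_of_nonneg_left hCm1 hφ0.le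
      linarith only [this, hφC, hφ0]
    linarith only [h1, heφ, hγχ, hχ0]
  have hc2 : 0 < cI m ^ 2 := by positivity
  have H1 := bas_part (hbase u₂ (by rw [hu₂]; linarith only [ho0]) hu₂1 φ hφ0) hc2
  have H2 := bas_part (hful φ hφ0) hc2
  have H3 := bas_part (Pool.GRW.TmC.wn htm u₂ φ hφ0) hc2
  obtain ⟨J₁, hJ₁⟩ := exists_nat_ge (2048 * Cc * (m + 13) / γ₀)
  obtain ⟨J₂, hJ₂⟩ := exists_nat_ge ((m + 100) / (x / 16))
  obtain ⟨J₃, hJ₃⟩ := exists_nat_ge ((Real.log C + 8 * K + 8) / (ε / 8))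
  obtain ⟨J₄, hJ₄⟩ := exists_nat_ge ((2 * m + 100) / (U - W))
  refine Bas.mono (J₁ + J₂ + J₃ + J₄) ((tmc_bas htm hφ0).and (H1.and (H2.and H3))) ?_
  rintro J hJ F A ⟨⟨hA, -⟩, h1, h2, h3⟩ V z z' G V₀ z₀ z₀' G₀ E₁ E₂ ρ₁ ρ₂ PG P au cu bv cv θp
    θs ju jv κ hG hG₀ hρ₁ hρ₂ nG nG₀ hnd hκ
  have hJ0 : (0 : ℝ) ≤ J := Nat.cast_nonneg J
  have j1 : (J₁ : ℝ) ≤ J := by exact_mod_cast (by omega : J₁ ≤ J)
  have j2 : (J₂ : ℝ) ≤ J := by exact_mod_cast (by omega : J₂ ≤ J)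
  have j3 : (J₃ : ℝ) ≤ J := by exact_mod_cast (by omega : J₃ ≤ J)
  have j4 : (J₄ : ℝ) ≤ J := by exact_mod_cast (by omega : J₄ ≤ J)
  have hm0 : (0 : ℝ) ≤ m := Nat.cast_nonneg m
  have k1 : 2048 * Cc * (m + 13) ≤ γ₀ * J := by
    have := hJ₁.trans j1
    rw [div_le_iff₀ hγ0] at this
    linarith only [this]
  have k2 : (m : ℝ) + 100 ≤ x / 16 * J := by
    have := hJ₂.trans j2
    rw [div_le_iff₀ (by linarith only [hx])] at this
    linarith only [this]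
  have k3 : Real.log C + 8 * K + 8 ≤ ε / 8 * J := by
    have := hJ₃.trans j3
    rw [div_le_iff₀ (by linarith only [hε])] at this
    linarith only [this]
  have k4 : 2 * (m : ℝ) + 100 ≤ (U - W) * J := by
    have := hJ₄.trans j4
    rw [div_le_iff₀ (by linarith only [hUW])] at this
    linarith only [this]
  -- the numbers
  have hcast : ∀ a b : ℕ, (a : ℝ) ≤ b → a ≤ b := fun a b h => by exact_mod_cast h
  have g0 : ∀ z : ℝ, 0 ≤ z → ((⌊z * J⌋₊ : ℕ) : ℝ) ≤ z * J := fun z hz =>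
    Nat.floor_le (mul_nonneg hz hJ0)
  have g1 : ∀ z : ℝ, z * J - 1 < ((⌊z * J⌋₊ : ℕ) : ℝ) := fun z => Nat.sub_one_lt_floor _
  obtain ⟨e, he⟩ : ∃ e, e = ⌊e₀ * J⌋₊ := ⟨_, rfl⟩
  have hea : (e : ℝ) ≤ e₀ * J := by rw [he]; exact g0 _ he₀.le
  obtain ⟨w, hw⟩ : ∃ w, w = ⌊W * J⌋₊ := ⟨_, rfl⟩
  have hw1 : (w : ℝ) ≤ W * J := by rw [hw]; exact g0 W hW0.le
  have hw2 : W * J - 1 < w := by rw [hw]; exact g1 W
  obtain ⟨nU, hnU⟩ : ∃ nU, nU = ⌊(U - W - e₀) * J⌋₊ := ⟨_, rfl⟩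
  have hnU1 : (nU : ℝ) ≤ (U - W - e₀) * J := by
    rw [hnU]
    exact g0 _ (by linarith only [heU, he₀])
  have hnU2 : (U - W - e₀) * J - 1 < nU := by rw [hnU]; exact g1 _
  obtain ⟨nD, hnD⟩ : ∃ nD, nD = ⌊(D - W - e₀) * J⌋₊ := ⟨_, rfl⟩
  have hnD1 : (nD : ℝ) ≤ (D - W - e₀) * J := by
    rw [hnD]
    exact g0 _ (by linarith only [heU, he₀, hUD])
  have hnD2 : (D - W - e₀) * J - 1 < nD := by rw [hnD]; exact g1 _
  obtain ⟨n₂, hn₂⟩ : ∃ n₂, n₂ = ⌊u₂ * J⌋₊ := ⟨_, rfl⟩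
  have hn1 : (n₂ : ℝ) ≤ u₂ * J := by
    rw [hn₂]
    exact g0 _ (by rw [hu₂]; linarith only [hW0, ho0])
  obtain ⟨L, hL⟩ : ∃ L, L = ⌊χ * J⌋₊ := ⟨_, rfl⟩
  have hL1 : (L : ℝ) ≤ χ * J := by rw [hL]; exact g0 _ hχ0.le
  have hL2 : χ * J - 1 < L := by rw [hL]; exact g1 _
  have hu₂J : u₂ * J = W * J + o * J := by rw [hu₂]; ring
  have hχJ : χ * J = x / 4 * J := by rw [hχ]
  have q1 : e₀ * J ≤ φ * J := mul_le_mul_of_nonneg_right heφ hJ0
  have q2 : o * J ≤ x / 4 * J := mul_le_mul_of_nonneg_right hox hJ0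
  have q3 : W * J ≤ U * J := mul_le_mul_of_nonneg_right hUW.le hJ0
  have q4 : U * J ≤ D * J := mul_le_mul_of_nonneg_right hUD hJ0
  have q5 : (D + x) * J ≤ 1 * J := mul_le_mul_of_nonneg_right hDx hJ0
  have q6 : e₀ * J ≤ χ * J := mul_le_mul_of_nonneg_right hexC hJ0
  have q7 : 0 ≤ e₀ * J := mul_nonneg he₀.le hJ0
  have q8 : 2 * e₀ * J ≤ (U - W) * J := mul_le_mul_of_nonneg_right heU hJ0
  have q9 : 0 ≤ x * J := mul_nonneg hx.le hJ0
  have hww : w ≤ n₂ := by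
    rw [hw, hn₂, hu₂]
    exact Nat.floor_le_floor (mul_le_mul_of_nonneg_right (by linarith only [ho0]) hJ0)
  have m1 : m + 3 ≤ w + nU := hcast _ _ (by
    push_cast
    have : 0 ≤ W * J := mul_nonneg hW0.le hJ0
    linarith only [hw2, hnU2, k4, q8, this, hm0])
  have m2 : m + 3 ≤ w + nD := hcast _ _ (by
    push_cast
    have : 0 ≤ W * J := mul_nonneg hW0.le hJ0
    linarith only [hw2, hnD2, k4, q8, this, hm0, q4])
  obtain ⟨gU, hgU⟩ : ∃ gU, gU = w + nU - (m + 3) := ⟨_, rfl⟩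
  obtain ⟨gD, hgD⟩ : ∃ gD, gD = w + nD - (m + 3) := ⟨_, rfl⟩
  have hgU' : gU + (m + 3) = w + nU := by omega
  have hgD' : gD + (m + 3) = w + nD := by omega
  have hgUr : (gU : ℝ) + (m + 3) = w + nU := by exact_mod_cast hgU'
  have hgDr : (gD : ℝ) + (m + 3) = w + nD := by exact_mod_cast hgD'
  rw [← hw] at hG hG₀
  rw [← hw, ← he, ← hnU, ← hnD] at hnd
  rw [← hw, ← hnU, ← hnD]
  have hwJ : w ≤ J := hcast _ _ (by linarith only [hw1, q3, q4, q5, q9])
  have pU : (0 : ℝ) < 1 / 2 ^ nU := by positivity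
  have pD : (0 : ℝ) < 1 / 2 ^ nD := by positivity
  -- the charts
  obtain ⟨Bu, bu1, bu2, zu, zu', bu3, bu4⟩ := lab_grdx (F := F) (A := A) (I := {c 0}) (v := c 1)
    (av := fun p _ => au p) (cv := cu) (th := fun s _ => ju s) (W := w) (M := nU) (e := e)
    (P := gU) hwJ (DpI.of_dp fun ω hω => ⟨(hnd.hbu ω hω).1, (hnd.hbu ω hω).2,
      (hnd.vu ω hω).trans (mul_le_of_le_one_left pU.le hκ)⟩)
    (fun ω hω _ _ => hnd.nu ω hω) (hcast _ _ (by
      push_cast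
      linarith only [hw1, hnU1, hea, k2, q4, q5, q9, hm0])) (by omega)
  have hsum : ∀ f : Fin m → ℝ, ∑ j ∈ ({c 0, c 1} : Finset (Fin m)), f j = f (c 0) + f (c 1) :=
    fun f => Finset.sum_pair h01
  obtain ⟨Bv, bv1, bv2, zv, zv', bv3, bv4⟩ := lab_grdx (F := F) (A := Bu) (I := {c 0, c 1})
    (v := c 2) (av := fun p j => if j = c 1 then θp p else bv p) (cv := cv)
    (th := fun s j => if j = c 1 then θs s else jv s) (W := w) (M := nD) (e := e)
    (P := gD) hwJ (fun ω hω => by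
      have hωA := bu1 ω hω
      refine ⟨fun j _ => ?_, (hnd.hbv ω hωA).2, ?_⟩
      · show |if j = c 1 then θp (ptr F J ω) else bv (ptr F J ω)| ≤ _
        split_ifs
        · exact hnd.hθ ω hωA
        · exact (hnd.hbv ω hωA).1
      · rw [hsum]
        show |F.d ω (c 2) - cv (ptr F J ω) - ((if c 0 = c 1 then θp (ptr F J ω) else
          bv (ptr F J ω)) * F.d ω (c 0) + (if c 1 = c 1 then θp (ptr F J ω) else
          bv (ptr F J ω)) * F.d ω (c 1))| ≤ _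
        rw [if_neg h01, if_pos rfl]
        have e1 : F.d ω (c 2) - cv (ptr F J ω) - (bv (ptr F J ω) * F.d ω (c 0) +
          θp (ptr F J ω) * F.d ω (c 1)) = F.d ω (c 2) - θp (ptr F J ω) * F.d ω (c 1) -
          cv (ptr F J ω) - bv (ptr F J ω) * F.d ω (c 0) := by ring
        rw [e1]
        exact (hnd.vv ω hωA).trans (mul_le_of_le_one_left pD.le hκ)) (fun ω hω j _ => by
      have hωA := bu1 ω hω
      show |(if j = c 1 then θs (slam F w ω) else jv (slam F w ω)) -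
        (if j = c 1 then θp (ptr F J ω) else bv (ptr F J ω))| ≤ _
      split_ifs
      · rw [hnd.thc ω hωA, sub_self, abs_zero]
        exact pD.le
      · exact hnd.nv ω hωA) (hcast _ _ (by
      push_cast
      linarith only [hw1, hnD1, hea, k2, q4, q5, q9, hm0])) (by omega)
  have hBvA : Sub Bv A := fun ω hω => bu1 ω (bv1 ω hω)
  have hPv : Pe F.p A ≤ cI m ^ 2 * Pe F.p Bv := by
    have := mul_le_mul_of_nonneg_left bv2 hcI.le
    calc Pe F.p A ≤ cI m * Pe F.p Bu := bu2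
      _ ≤ cI m * (cI m * Pe F.p Bv) := this
      _ = cI m ^ 2 * Pe F.p Bv := by ring
  have hBv0 : 0 < Pe F.p Bv := by
    by_contra hcon
    have h5 : cI m ^ 2 * Pe F.p Bv ≤ 0 :=
      mul_nonpos_of_nonneg_of_nonpos hc2.le (not_lt.1 hcon)
    linarith only [h5, hPv, hA]
  have f1 := h1 Bv hBvA hPv
  have f2 := h2 Bv hBvA hPv
  have f3 := h3 Bv hBvA hPv
  have hlog1 := Real.log_two_gt_d9
  have hlog2 := Real.log_two_lt_d9
  have hl1 : Real.log 2 ≤ 1 := by linarith only [hlog2]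
  have hl0 : 0 < Real.log 2 := by linarith only [hlog1]
  have hlow : ∀ (g : ℕ) (σ : ℝ), (σ - e₀) * J - (m + 5) ≤ g →
      ((J : ℝ) - g) * Real.log 2 - ((e₀ + φ) * J + (m + 8)) ≤
        ((1 - σ) - φ) * Real.log 2 * J := by
    intro g σ hg
    have r1 : ((J : ℝ) - g) * Real.log 2 ≤ ((1 - σ) * J + e₀ * J + (m + 5)) * Real.log 2 :=
      mul_le_mul_of_nonneg_right (by linarith only [hg]) hl0.le
    have r2 : (e₀ * J + (m + 5)) * Real.log 2 ≤ e₀ * J + (m + 5) :=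
      mul_le_of_le_one_right (by linarith only [q7, hm0]) hl1
    have r3 : φ * J * Real.log 2 ≤ φ * J :=
      mul_le_of_le_one_right (mul_nonneg hφ0.le hJ0) hl1
    linarith only [r1, r2, r3, hm0]
  obtain ⟨B, b1, b2, b3⟩ := hhn F Bv hBv0 hc (k := k) (w := w) (n₂ := n₂)
    (n := e + (n₂ - w) + 6) (L := L) (e := e) (nU := nU) (nD := nD) (gU := gU) (gD := gD)
    (E₁ := E₁) (E₂ := E₂) (ρ₁ := ρ₁) (ρ₂ := ρ₂) (PG := PG) (P := P)
    (θf := (e₀ + φ) * J + (m + 8)) (θt := φ * J) (γ := γ₀ * J) (hG.sub hBvA) (hG₀.sub hBvA)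
    hρ₁ hρ₂ nG nG₀ (hnd.sub hBvA) ((bu3 0).sub bv1) (bv3 0)
    (fun ω hω => bu4 ω (bv1 ω hω) (c 0) (Finset.mem_singleton_self _))
    (fun ω hω => by
      have r1 := bv4 ω hω (c 0) (Finset.mem_insert_self _ _)
      have r2 := bv4 ω hω (c 1) (Finset.mem_insert_of_mem (Finset.mem_singleton_self _))
      beta_reduce at r1 r2
      rw [if_neg h01] at r1
      rw [if_pos rfl] at r2
      exact ⟨r1, r2⟩) hww (hcast _ _ (by
      push_cast
      linarith only [hn1, hu₂J, hL1, hχJ, q2, q3, q4, q5, q9])) (hcast _ _ (by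
      push_cast
      linarith only [hgUr, hw1, hnU1, hea, hL1, hχJ, k2, q4, q5, q9, hm0])) (hcast _ _ (by
      push_cast
      linarith only [hgDr, hw1, hnD1, hea, hL1, hχJ, k2, q4, q5, q9, hm0])) (by omega) (by omega)
    (by omega) (by omega) (by positivity) (by positivity) (by
      rw [hn₂]
      refine f3.2 L ?_
      rw [← hn₂]
      exact hcast _ _ (by
        push_cast
        linarith only [hn1, hu₂J, hL1, hχJ, q2, q3, q4, q5, q9])) (fun X x x' hxx => by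
      have r1 := f1 X x x' (fun ω hω => by rw [← hw]; exact hxx ω hω)
      rw [← hn₂, ← hw] at r1
      have r2 : ({c 0} : Finset (Fin m)) = (range 1).image c := by
        ext a
        simp
      rw [Finset.card_singleton, r2] at r1
      have r3 := r1.trans (Pool.LA91.base_dig (isLaw_cond F.isLaw hBv0).nonneg
        (r₀ := 1) (c := c) (fun ω => x' (slam F w ω)))
      rw [Nat.cast_sub (hcast _ _ (by
        linarith only [hn1, hu₂J, q2, q3, q4, q5, q9]))] at r3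
      exact r3) (fun X x x' hxx => by
      have r1 := f2 X x x' (fun ω hω => by rw [← hw]; exact hxx ω hω)
      rw [← hw] at r1
      have r2 := r1 1 le_rfl (by norm_num)
      have r3 := r1 2 (by norm_num) (by norm_num)
      rw [hs1] at r2
      rw [hs2] at r3
      exact ⟨(hlow gU U (by linarith only [hgUr, hw2, hnU2])).trans r2,
        (hlow gD D (by linarith only [hgDr, hw2, hnD2])).trans r3⟩) (by
      rw [← hCc]
      have r1 : Cc * (e₀ * J) ≤ Cc * (φ * J) := mul_le_mul_of_nonneg_left q1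
        (by linarith only [hCm1])
      have r2 : 8192 * (Cc * (φ * J)) = γ₀ * J := by
        rw [← hφC]
        ring
      have e1 : Cc * ((e₀ + φ) * J + (m + 8) + 5) * 1024 = 1024 * (Cc * (e₀ * J)) +
        1024 * (Cc * (φ * J)) + (2048 * Cc * (m + 13)) / 2 := by ring
      rw [e1]
      have r3 : 0 ≤ γ₀ * J := mul_nonneg hγ0.le hJ0
      linarith only [r1, r2, k1, r3]) (by
      rw [← hCc]
      have r2 : 8192 * (Cc * (φ * J)) = γ₀ * J := by
        rw [← hφC]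
        ring
      have e1 : Cc * (φ * J + 7) * 1024 = 1024 * (Cc * (φ * J)) + 7168 * Cc := by ring
      rw [e1]
      have r4 : 0 ≤ Cc * m := mul_nonneg (by linarith only [hCm1]) hm0
      have r3 : 0 ≤ γ₀ * J := mul_nonneg hγ0.le hJ0
      linarith only [r2, k1, r3, r4, hCm1]) (by
      have r1 : γ₀ * J ≤ χ / 4 * J := mul_le_mul_of_nonneg_right hγχ hJ0
      have r2 : (χ * J - 1) * Real.log 2 ≤ L * Real.log 2 :=
        mul_le_mul_of_nonneg_right hL2.le hl0.le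
      have r3 : (χ * J - 1) * (1 / 2) ≤ (χ * J - 1) * Real.log 2 :=
        mul_le_mul_of_nonneg_left (by linarith only [hlog1]) (by linarith only [hχJ, k2, hm0])
      linarith only [r1, r2, r3, hχJ, k2, hm0])
  refine ⟨B, fun ω hω => hBvA ω (b1 ω hω), ?_, b3.mono ?_⟩
  · have := mul_le_mul_of_nonneg_left b2 hc2.le
    calc Pe F.p A ≤ cI m ^ 2 * Pe F.p Bv := hPv
      _ ≤ cI m ^ 2 * (2 * Pe F.p B) := this
      _ = 2 * cI m ^ 2 * Pe F.p B := by ring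
  · refine mul_le_mul_of_nonneg_right ?_ (by positivity)
    obtain ⟨N, hN⟩ : ∃ N, N = (e + (n₂ - w) + 6) * K := ⟨_, rfl⟩
    have hNr : (N : ℝ) ≤ ε / 8 * J + 8 * K := by
      have r1 : ((n₂ - w : ℕ) : ℝ) ≤ o * J + 1 := by
        rw [Nat.cast_sub hww]
        linarith only [hn1, hw2, hu₂J]
      rw [hN]
      push_cast
      have r2 : ((e : ℝ) + ((n₂ - w : ℕ) : ℝ) + 6) * K ≤ (e₀ * J + (o * J + 1) + 6) * K :=
        mul_le_mul_of_nonneg_right (by linarith only [r1, hea]) (by linarith only [hK1])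
      have r3 : 16 * (e₀ * K) * J ≤ ε * J := mul_le_mul_of_nonneg_right heK hJ0
      have r4 : 16 * (o * K) * J ≤ ε * J := mul_le_mul_of_nonneg_right hoK hJ0
      linarith only [r2, r3, r4, hK1]
    have hfl : ε * J - 1 < ⌊ε * (J : ℝ)⌋₊ := Nat.sub_one_lt_floor _
    rw [← hN]
    have hlogC : 0 ≤ Real.log C := Real.log_nonneg hC
    have e1 : C * 2 ^ N * Real.exp (4 * (γ₀ * J)) =
        Real.exp (Real.log C + N * Real.log 2 + 4 * (γ₀ * J)) := by
      rw [Real.exp_add, Real.exp_add, Real.exp_log (by linarith only [hC]), two_exp]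
    have e2 : (2 : ℝ) ^ ⌊ε * (J : ℝ)⌋₊ = Real.exp (⌊ε * (J : ℝ)⌋₊ * Real.log 2) := two_exp _
    rw [e1, e2]
    refine Real.exp_le_exp.2 ?_
    have r1 : (N : ℝ) * Real.log 2 ≤ (ε / 8 * J + 8 * K) * Real.log 2 :=
      mul_le_mul_of_nonneg_right hNr hl0.le
    have r2 : (ε * J - 1) * Real.log 2 ≤ ⌊ε * (J : ℝ)⌋₊ * Real.log 2 :=
      mul_le_mul_of_nonneg_right hfl.le hl0.le
    have r3 : γ₀ * J ≤ ε / 32 * J := mul_le_mul_of_nonneg_right hγε hJ0
    have r4 : (ε / 8 * J + 8 * K) * Real.log 2 ≤ ε / 8 * J + 8 * K :=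
      mul_le_of_le_one_right (by positivity) hl1
    have r5 : (ε * J - 1) * (1 / 2) ≤ (ε * J - 1) * Real.log 2 :=
      mul_le_mul_of_nonneg_left (by linarith only [hlog1]) (by
        linarith only [k3, hlogC, hK1])
    linarith only [r1, r2, r3, r4, r5, k3, hK1, hlogC]

end Pool.JVE.R6
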