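import Pool.Agent.H62.AFN.Nbr

/-!
# Points near the line, in natural units

`HA`: all second derivatives of a label in natural directions on the natural boxes are at most `H`.
`cmp_hs`, `cmp_dd`: the second derivatives and the gradient in natural directions at a point which
is near to the line, and at the point of the line at the same time. No radius is used.
-/

set_option autoImplicit false

namespace Pool.JVE.R6

open Finset MvPolynomial
open Pool.Agent.H49.Ent Pool.Agent.H32.Dense Pool.STK Pool.KA Pool.KSAT Pool.K2S Pool.PB Pool.GEN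
open Pool.MIC6 (mvp wt wp wpt wp_eq dpt dpt_near dpt_none ptr_x)
open Pool.PB.Trl (rt rt_mem t_rt)
open Pool.D2R (hs dd der_curve hs_add_left hs_smul_left hs_comm)

variable {m J : ℕ}

/-- **All second derivatives in natural directions on the natural boxes.** -/
def HA (F : Fam m J) (A : F.Ω → Prop) (w : ℕ) (y u v : Fin m) (au bv θp : PtT F → ℝ)
    (aU aD : ℝ) {V : Type} (z : PtT F → V) (G : V → MvPolynomial (Option (Fin m)) ℝ)
    (H : ℝ) : Prop :=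
  ∀ ω, A ω → ∀ x, NB3 F w y u v (au (ptr F J ω)) (bv (ptr F J ω)) (θp (ptr F J ω)) aU aD
    ω x → ∀ i j, (1 / 2 ^ w) ^ 2 * |hs (G (z (ptr F J ω))) x
      (nd4 F y u v (au (ptr F J ω)) (bv (ptr F J ω)) (θp (ptr F J ω)) aU aD ω i)
      (nd4 F y u v (au (ptr F J ω)) (bv (ptr F J ω)) (θp (ptr F J ω)) aU aD ω j)| ≤ H

theorem HA.sub {F : Fam m J} {A B : F.Ω → Prop} {w : ℕ} {y u v : Fin m}
    {au bv θp : PtT F → ℝ} {aU aD : ℝ} {V : Type} {z : PtT F → V}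
    {G : V → MvPolynomial (Option (Fin m)) ℝ} {H : ℝ}
    (h : HA F A w y u v au bv θp aU aD z G H) (hB : Sub B A) :
    HA F B w y u v au bv θp aU aD z G H := fun ω hω => h ω (hB ω hω)

theorem HA.mono {F : Fam m J} {A : F.Ω → Prop} {w : ℕ} {y u v : Fin m}
    {au bv θp : PtT F → ℝ} {aU aD : ℝ} {V : Type} {z : PtT F → V}
    {G : V → MvPolynomial (Option (Fin m)) ℝ} {H H' : ℝ}
    (h : HA F A w y u v au bv θp aU aD z G H) (hH : H ≤ H') :
    HA F A w y u v au bv θp aU aD z G H' := fun ω hω x hx i j => (h ω hω x hx i j).trans hH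

/-- The mixed part. -/
theorem HA.hn {F : Fam m J} {A : F.Ω → Prop} {w : ℕ} {y u v : Fin m}
    {au bv θp : PtT F → ℝ} {aU aD : ℝ} {V : Type} {z : PtT F → V}
    {G : V → MvPolynomial (Option (Fin m)) ℝ} {H : ℝ}
    (h : HA F A w y u v au bv θp aU aD z G H) :
    ∀ ω, A ω → ∀ x, NB3 F w y u v (au (ptr F J ω)) (bv (ptr F J ω)) (θp (ptr F J ω)) aU aD
      ω x → ∀ i, (1 / 2 ^ w) ^ 2 * |hs (G (z (ptr F J ω))) x (nd4 F y u v (au (ptr F J ω))
        (bv (ptr F J ω)) (θp (ptr F J ω)) aU aD ω i) (aU • eu u v (θp (ptr F J ω)))| ≤ H ∧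
      (1 / 2 ^ w) ^ 2 * |hs (G (z (ptr F J ω))) x (nd4 F y u v (au (ptr F J ω))
        (bv (ptr F J ω)) (θp (ptr F J ω)) aU aD ω i) (aD • ev v)| ≤ H :=
  fun ω hω x hx i => ⟨h ω hω x hx i 2, h ω hω x hx i 3⟩

/-- **A point near the line.** -/
structure Npt (F : Fam m J) (w : ℕ) (ω : F.Ω) (d : Option (Fin m) → ℝ) : Prop where
  tm : d none ∈ Set.Icc (wt F w ω 0) (wt F w ω 1)
  dv : ∀ j, |dl F ω d j| ≤ 1 / 2 ^ J

theorem dl_bt (F : Fam m J) {w : ℕ} (hw : w ≤ J) (ω : F.Ω) (j : Fin m) :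
    dl F ω (bt F ω) j = 0 := by
  have h2 := wp_eq F hw ω (rt F w ω) j
  rw [sub_self, mul_zero, zero_mul, add_zero] at h2
  have h3 : wt F w ω (rt F w ω) = F.t ω := by
    rw [t_rt F hw]
    unfold wt
    ring
  have h4 : F.u ω j + F.d ω j * F.t ω = F.x ω j := by
    rw [← h2]
    unfold wp
    rw [h3]
  show F.x ω j - (F.u ω j + F.d ω j * F.t ω) = 0
  rw [h4, sub_self]

theorem t_mem (F : Fam m J) {w : ℕ} (hw : w ≤ J) (ω : F.Ω) :
    F.t ω ∈ Set.Icc (wt F w ω 0) (wt F w ω 1) := by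
  have h3 : F.t ω = wt F w ω (rt F w ω) := by
    rw [t_rt F hw]
    unfold wt
    ring
  rw [h3]
  exact wt_mem F w ω (rt_mem F w ω)

theorem npt_bt (F : Fam m J) {w : ℕ} (hw : w ≤ J) (ω : F.Ω) : Npt F w ω (bt F ω) :=
  ⟨t_mem F hw ω, fun j => by
    rw [dl_bt F hw, abs_zero]
    positivity⟩

theorem npt_dpt (F : Fam m J) {w : ℕ} (hw : w ≤ J) (ω : F.Ω) :
    Npt F w ω (dpt (ptr F J ω)) :=
  ⟨by
    rw [dpt_none]
    exact t_mem F hw ω, fun j => dl_dpt F hw ω j⟩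

theorem dl_slam (F : Fam m J) {w : ℕ} {ω ω' : F.Ω} (h : slam F w ω' = slam F w ω)
    (d : Option (Fin m) → ℝ) (j : Fin m) : dl F ω' d j = dl F ω d j := by
  have hu : F.u ω' = F.u ω := (Prod.ext_iff.mp (Prod.ext_iff.mp h).1).1
  have hd : F.d ω' = F.d ω := (Prod.ext_iff.mp (Prod.ext_iff.mp h).1).2
  unfold dl
  rw [hu, hd]

theorem Npt.slam {F : Fam m J} {w : ℕ} {ω ω' : F.Ω} (h : slam F w ω' = slam F w ω)
    {d : Option (Fin m) → ℝ} (hd : Npt F w ω d) : Npt F w ω' d := by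
  have hwt : ∀ σ, wt F w ω' σ = wt F w ω σ := fun σ => by
    unfold wt
    rw [h]
  refine ⟨?_, fun j => ?_⟩
  · rw [hwt, hwt]
    exact hd.tm
  · rw [dl_slam F h]
    exact hd.dv j

section frame

variable {F : Fam m J} {w e : ℕ} {y u v : Fin m} {a b t aU aD κ : ℝ}

/-- The points near the line are in the natural box. -/
theorem nb3_of (ha : |a| ≤ 2 ^ e) (hb : |b| ≤ 2 ^ e) (ht : |t| ≤ 2 ^ e) (hU : 0 < aU)
    (hU1 : aU ≤ 1) (hD : 0 < aD) (hκ : 0 ≤ κ)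
    (hκU : 2 ^ (w + e + 4) / 2 ^ J ≤ κ * aU) (hκD : 2 ^ (w + e + 4) / 2 ^ J ≤ κ * aD)
    {ω : F.Ω} {x : Option (Fin m) → ℝ} {R : ℝ} (hR : 0 ≤ R) (hRκ : R * κ ≤ 1)
    (htm : x none ∈ Set.Icc (wt F w ω 0) (wt F w ω 1))
    (hdl : ∀ j, |dl F ω x j| ≤ R * (1 / 2 ^ J)) :
    NB3 F w y u v a b t aU aD ω x ∧ |dl F ω x y| ≤ R * (κ * (1 / 2 ^ w)) / 16 ∧
      |dl F ω x u - a * dl F ω x y| ≤ R * (κ * (1 / 2 ^ w)) / 8 * aU ∧
      |dl F ω x v - t * dl F ω x u - b * dl F ω x y| ≤ R * (κ * (1 / 2 ^ w)) * 3 / 16 * aD := by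
  have pe : (1 : ℝ) ≤ 2 ^ e := one_le_pow₀ (by norm_num)
  have pw : (0 : ℝ) < 1 / 2 ^ w := by positivity
  have pJ : (0 : ℝ) < 1 / 2 ^ J := by positivity
  have hjunk : 2 ^ (w + e + 4) / (2 : ℝ) ^ J = 16 * 2 ^ e * (2 ^ w * (1 / 2 ^ J)) := by
    rw [pow_add, pow_add]
    ring
  rw [hjunk] at hκU hκD
  have key : ∀ z : ℝ, 16 * 2 ^ e * (2 ^ w * (1 / 2 ^ J)) ≤ κ * z →
      2 ^ e * (R * (1 / 2 ^ J)) ≤ R * (κ * (1 / 2 ^ w)) / 16 * z := by
    intro z h1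
    have h2 := mul_le_mul_of_nonneg_left h1 (by positivity : (0 : ℝ) ≤ R * (1 / 2 ^ w) / 16)
    have e1 : R * (1 / 2 ^ w) / 16 * (16 * 2 ^ e * (2 ^ w * (1 / 2 ^ J))) =
        2 ^ e * (R * ((1 : ℝ) / 2 ^ J)) := by field_simp
    rw [e1] at h2
    refine h2.trans (le_of_eq ?_)
    ring
  have kU := key aU hκU
  have kD := key aD hκD
  have hone : 1 * (R * (1 / 2 ^ J)) ≤ 2 ^ e * (R * ((1 : ℝ) / 2 ^ J)) :=
    mul_le_mul_of_nonneg_right pe (by positivity)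
  have hX0 : 0 ≤ R * (κ * (1 / 2 ^ w)) := by positivity
  have hX : R * (κ * (1 / 2 ^ w)) ≤ 1 / 2 ^ w := by
    have := mul_le_mul_of_nonneg_right hRκ pw.le
    linarith
  have hXU : R * (κ * (1 / 2 ^ w)) / 16 * aU ≤ R * (κ * (1 / 2 ^ w)) / 16 :=
    mul_le_of_le_one_right (by positivity) hU1
  have hy := hdl y
  have hu := hdl u
  have hv := hdl v
  have d1 : |dl F ω x y| ≤ R * (κ * (1 / 2 ^ w)) / 16 := by linarith
  have d2 : |dl F ω x u - a * dl F ω x y| ≤ R * (κ * (1 / 2 ^ w)) / 8 * aU := by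
    refine (abs_sub _ _).trans ?_
    have k1 : |a * dl F ω x y| ≤ 2 ^ e * (R * (1 / 2 ^ J)) := by
      rw [abs_mul]
      exact mul_le_mul ha hy (abs_nonneg _) (by positivity)
    linarith
  have d3 : |dl F ω x v - t * dl F ω x u - b * dl F ω x y| ≤
      R * (κ * (1 / 2 ^ w)) * 3 / 16 * aD := by
    have k1 : |b * dl F ω x y| ≤ 2 ^ e * (R * (1 / 2 ^ J)) := by
      rw [abs_mul]
      exact mul_le_mul hb hy (abs_nonneg _) (by positivity)
    have k2 : |t * dl F ω x u| ≤ 2 ^ e * (R * (1 / 2 ^ J)) := by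
      rw [abs_mul]
      exact mul_le_mul ht hu (abs_nonneg _) (by positivity)
    have k3 := abs_sub (dl F ω x v - t * dl F ω x u) (b * dl F ω x y)
    have k4 := abs_sub (dl F ω x v) (t * dl F ω x u)
    linarith
  refine ⟨⟨htm, ?_, ?_, ?_⟩, d1, d2, d3⟩
  · refine d1.trans ?_
    rw [div_eq_mul_one_div (3 : ℝ)]
    linarith
  · refine d2.trans (mul_le_mul_of_nonneg_right ?_ hU.le)
    linarith
  · refine d3.trans (mul_le_mul_of_nonneg_right ?_ hD.le)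
    linarith

/-- The second derivative as a polynomial. -/
theorem eval_gdp2 (G : MvPolynomial (Option (Fin m)) ℝ) (V W x : Option (Fin m) → ℝ) :
    eval x (gdp (gdp G W) V) = hs G x V W := by
  rw [eval_gdp, dd_gdp]

theorem deg_gdp {G : MvPolynomial (Option (Fin m)) ℝ} {K : ℕ} (hG : G.totalDegree ≤ K)
    (W : Option (Fin m) → ℝ) : (gdp G W).totalDegree ≤ K := by
  unfold gdp
  refine totalDegree_finsetSum_le fun o _ => ?_
  refine (totalDegree_mul _ _).trans ?_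
  rw [totalDegree_C, zero_add]
  exact (deg_pd _ _).trans hG

/-- **The second derivatives at a point near the line.** -/
theorem cmp_hs (K : ℕ) : ∃ C : ℝ, 1 ≤ C ∧ ∀ {m J : ℕ} {F : Fam m J} {w e : ℕ}
    {y u v : Fin m} {a b t aU aD κ H : ℝ} {ω : F.Ω}
    {G : MvPolynomial (Option (Fin m)) ℝ} {c d V W : Option (Fin m) → ℝ},
    |a| ≤ 2 ^ e → |b| ≤ 2 ^ e → |t| ≤ 2 ^ e → 0 < aU → aU ≤ 1 → 0 < aD → 0 < κ → κ ≤ 1 →
    2 ^ (w + e + 4) / 2 ^ J ≤ κ * aU → 2 ^ (w + e + 4) / 2 ^ J ≤ κ * aD →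
    G.totalDegree ≤ K → Npt F w ω d → (∀ j, dl F ω c j = 0) → c none = d none →
    (∀ x, NB3 F w y u v a b t aU aD ω x → (1 / 2 ^ w) ^ 2 * |hs G x V W| ≤ H) →
    (1 / 2 ^ w) ^ 2 * |hs G d V W - hs G c V W| ≤ C * (κ * H) := by
  classical
  obtain ⟨C, hC, hmk⟩ := Pool.Agent.H40.BFL.unit_markov K
  refine ⟨C, hC, ?_⟩
  intro m J F w e y u v a b t aU aD κ H ω G c d V W ha hb ht hU hU1 hD hκ hκ1 hκU hκD hG hd hc hcd hN
  have pw : (0 : ℝ) < (1 / 2 ^ w) ^ 2 := by positivity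
  obtain ⟨Δ, hΔ⟩ : ∃ Δ, Δ = d - c := ⟨_, rfl⟩
  have e0 : d = c + Δ := by rw [hΔ]; abel
  obtain ⟨q, hq⟩ : ∃ q : Polynomial ℝ, q = (MvPolynomial.aeval (lnp c Δ) (gdp (gdp G W) V)).comp
    (Polynomial.C (1 / κ) * Polynomial.X) * Polynomial.C ((1 / 2 ^ w) ^ 2) := ⟨_, rfl⟩
  have hqe : ∀ s, q.eval s = (1 / 2 ^ w) ^ 2 * hs G (c + (s / κ) • Δ) V W := by
    intro s
    rw [hq, Polynomial.eval_mul, Polynomial.eval_C, Polynomial.eval_comp, Polynomial.eval_mul,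
      Polynomial.eval_C, Polynomial.eval_X, Pool.KBX.eval_aeval_poly, eval_lnp, eval_gdp2]
    have e1 : 1 / κ * s = s / κ := by ring
    rw [e1]
    ring
  have hqd : q.natDegree ≤ K := by
    rw [hq]
    refine Polynomial.natDegree_mul_le.trans ?_
    rw [Polynomial.natDegree_C, add_zero]
    refine Polynomial.natDegree_comp_le.trans ?_
    have h1 := deg_lnp (deg_gdp (deg_gdp hG W) V) c Δ
    have h2 : (Polynomial.C (1 / κ) * Polynomial.X : Polynomial ℝ).natDegree ≤ 1 := by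
      refine Polynomial.natDegree_mul_le.trans ?_
      rw [Polynomial.natDegree_C, zero_add]
      exact Polynomial.natDegree_X_le
    calc _ ≤ K * 1 := Nat.mul_le_mul h1 h2
      _ = K := mul_one K
  have hbd : ∀ s ∈ Set.Icc (0 : ℝ) 1, |q.eval s| ≤ H := by
    intro s hs'
    rw [hqe, abs_mul, abs_of_pos pw]
    refine hN _ ?_
    have h1 : 0 ≤ s / κ := div_nonneg hs'.1 hκ.le
    refine (nb3_of ha hb ht hU hU1 hD hκ.le hκU hκD (R := s / κ) h1 (by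
      rw [div_mul_cancel₀ _ hκ.ne']
      exact hs'.2) ?_ fun j => ?_).1
    · have e1 : (c + (s / κ) • Δ) none = d none := by
        rw [Pi.add_apply, Pi.smul_apply, hΔ, Pi.sub_apply, hcd, sub_self, smul_zero, add_zero]
      rw [e1]
      exact hd.tm
    · rw [dl_seg, hc j, mul_zero, zero_add, ← e0, abs_mul, abs_of_nonneg h1]
      exact mul_le_mul_of_nonneg_left (hd.dv j) h1
  have hH0 : 0 ≤ H := (abs_nonneg _).trans (hbd 0 ⟨le_rfl, zero_le_one⟩)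
  have e1 : (1 / 2 ^ w) ^ 2 * |hs G d V W - hs G c V W| = |q.eval κ - q.eval 0| := by
    rw [hqe, hqe, div_self hκ.ne', one_smul, zero_div, zero_smul, add_zero, ← e0, ← mul_sub,
      abs_mul, abs_of_pos pw]
  rw [e1]
  obtain ⟨p, hp⟩ : ∃ p : Polynomial ℝ, p = q.comp (Polynomial.C κ * Polynomial.X) := ⟨_, rfl⟩
  have hpe : ∀ s, p.eval s = q.eval (κ * s) := fun s => by
    rw [hp, Polynomial.eval_comp, Polynomial.eval_mul, Polynomial.eval_C, Polynomial.eval_X]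
  have h2 := mvt_pol (q := p) (B := κ * (C * H)) (fun s hs' => by
    rw [hp, Polynomial.derivative_comp, Polynomial.eval_mul]
    simp only [Polynomial.derivative_mul, Polynomial.derivative_C, Polynomial.derivative_X,
      zero_mul, zero_add, mul_one, Polynomial.eval_C, Polynomial.eval_comp, Polynomial.eval_mul,
      Polynomial.eval_X]
    rw [abs_mul, abs_of_pos hκ]
    refine mul_le_mul_of_nonneg_left (hmk q H hqd hbd _ ⟨mul_nonneg hκ.le hs'.1, ?_⟩) hκ.le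
    exact mul_le_one₀ hκ1 hs'.1 hs'.2) (s := 1) (t := 0) ⟨zero_le_one, le_rfl⟩
    ⟨le_rfl, zero_le_one⟩
  rw [hpe, hpe, mul_one, mul_zero] at h2
  refine h2.trans (le_of_eq ?_)
  ring

/-- **The gradient at a point near the line.** -/
theorem cmp_dd {m J : ℕ} {F : Fam m J} {w e : ℕ} {y u v : Fin m} (hyu : y ≠ u) (hyv : y ≠ v)
    (huv : u ≠ v) {a b t aU aD κ H : ℝ} {ω : F.Ω}
    {G : MvPolynomial (Option (Fin m)) ℝ} {c d W : Option (Fin m) → ℝ}
    (hdep : ∀ b b' : Option (Fin m) → ℝ, b none = b' none →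
      (∀ i ∈ ({y, u, v} : Finset (Fin m)), b (some i) = b' (some i)) → eval b G = eval b' G)
    (ha : |a| ≤ 2 ^ e) (hb : |b| ≤ 2 ^ e) (ht : |t| ≤ 2 ^ e) (hU : 0 < aU) (hU1 : aU ≤ 1)
    (hD : 0 < aD) (hκ : 0 ≤ κ) (hκ1 : κ ≤ 1)
    (hκU : 2 ^ (w + e + 4) / 2 ^ J ≤ κ * aU) (hκD : 2 ^ (w + e + 4) / 2 ^ J ≤ κ * aD)
    (hd : Npt F w ω d) (hc : ∀ j, dl F ω c j = 0) (hcd : c none = d none)
    (hN : ∀ x, NB3 F w y u v a b t aU aD ω x → ∀ i,
      (1 / 2 ^ w) ^ 2 * |hs G x (nd4 F y u v a b t aU aD ω i) W| ≤ H) :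
    |dd G d W - dd G c W| ≤ 2 ^ w * (κ * H) := by
  classical
  have pw : (0 : ℝ) < 1 / 2 ^ w := by positivity
  obtain ⟨Δ, hΔ⟩ : ∃ Δ, Δ = d - c := ⟨_, rfl⟩
  have e0 : d = c + Δ := by rw [hΔ]; abel
  have hΔn : Δ none = 0 := by rw [hΔ, Pi.sub_apply, hcd, sub_self]
  have hΔj : ∀ j, Δ (some j) = dl F ω d j := by
    intro j
    have h1 := hc j
    unfold dl at h1 ⊢
    rw [hΔ, Pi.sub_apply]
    rw [hcd] at h1
    linarith only [h1]
  obtain ⟨-, d1, d2, d3⟩ := nb3_of (F := F) (y := y) (u := u) (v := v) ha hb ht hU hU1 hD hκ hκU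
    hκD (ω := ω) (x := d) (R := 1) zero_le_one (by rw [one_mul]; exact hκ1) hd.tm
    (fun j => by rw [one_mul]; exact hd.dv j)
  rw [one_mul] at d1 d2 d3
  have hmem : ∀ r ∈ Set.Icc (0 : ℝ) 1, NB3 F w y u v a b t aU aD ω (c + r • Δ) := by
    intro r hr
    refine (nb3_of ha hb ht hU hU1 hD hκ hκU hκD (R := r) hr.1 (mul_le_one₀ hr.2 hκ hκ1) ?_
      fun j => ?_).1
    · rw [Pi.add_apply, Pi.smul_apply, hΔn, smul_zero, add_zero, hcd]
      exact hd.tm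
    · rw [dl_seg, hc j, mul_zero, zero_add, ← e0, abs_mul, abs_of_nonneg hr.1]
      exact mul_le_mul_of_nonneg_left (hd.dv j) hr.1
  rw [e0]
  refine dd_mv fun r hr => ?_
  have hb' : ∀ i, |hs G (c + r • Δ) (nd4 F y u v a b t aU aD ω i) W| ≤ (2 ^ w) ^ 2 * H := by
    intro i
    have h1 := hN _ (hmem r hr) i
    have h2 : (2 ^ w) ^ 2 * ((1 / 2 ^ w) ^ 2 *
        |hs G (c + r • Δ) (nd4 F y u v a b t aU aD ω i) W|) =
        |hs G (c + r • Δ) (nd4 F y u v a b t aU aD ω i) W| := by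
      field_simp
    rw [← h2]
    exact mul_le_mul_of_nonneg_left h1 (by positivity)
  have b1 := hb' 1
  have b2 := hb' 2
  have b3 := hb' 3
  have f1 : nd4 F y u v a b t aU aD ω 1 = svc (sl3 y u v a (b + t * a)) := rfl
  have f2 : nd4 F y u v a b t aU aD ω 2 = aU • eu u v t := rfl
  have f3 : nd4 F y u v a b t aU aD ω 3 = aD • ev v := rfl
  rw [f1] at b1
  rw [f2] at b2
  rw [f3] at b3
  have hH0 : 0 ≤ H := le_trans (by positivity) (hN _ (hmem r hr) 0)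
  rw [dec4 hyu hyv huv hdep F ω hU hD (c + r • Δ) W Δ (a := a) (b := b) (t := t), hΔn, mul_zero,
    sub_zero, mul_zero, sub_zero, mul_zero, sub_zero, hΔj, hΔj, hΔj, zero_mul, zero_add]
  obtain ⟨B, hB⟩ : ∃ B : ℝ, B = (2 ^ w) ^ 2 * H := ⟨_, rfl⟩
  have hB0 : 0 ≤ B := by rw [hB]; positivity
  rw [← hB] at b1 b2 b3
  have c2 : |(dl F ω d u - a * dl F ω d y) / aU| ≤ κ * (1 / 2 ^ w) / 8 := by
    rw [abs_div, abs_of_pos hU, div_le_iff₀ hU]
    exact d2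
  have c3 : |(dl F ω d v - t * dl F ω d u - b * dl F ω d y) / aD| ≤ κ * (1 / 2 ^ w) * 3 / 16 := by
    rw [abs_div, abs_of_pos hD, div_le_iff₀ hD]
    exact d3
  have m1 := mul_le_mul d1 b1 (abs_nonneg _) (by positivity)
  have m2 := mul_le_mul c2 b2 (abs_nonneg _) (by positivity)
  have m3 := mul_le_mul c3 b3 (abs_nonneg _) (by positivity)
  rw [← abs_mul] at m1 m2 m3
  refine (abs_add_le _ _).trans ((add_le_add ((abs_add_le _ _).trans (add_le_add m1 m2))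
    m3).trans ?_)
  have e1 : 2 ^ w * (κ * H) = κ * (1 / 2 ^ w) * B := by
    rw [hB]
    field_simp
  rw [e1]
  have h5 : 0 ≤ κ * (1 / 2 ^ w) * B := by positivity
  linarith only [h5]

end frame

end Pool.JVE.R6
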