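import Pool.Agent.H6.AFR.Str
import Pool.Agent.H62.AFN.Afx

/-!
# One improvement of the bound of the second derivatives, in a class, without a radius

`one_clr`, `itr_clr`: as `one_cls`, `itr_cls`, for labels with any radius exponent `ρ ≤ J`.
-/

set_option autoImplicit false

namespace Pool.JVE.R6

open Finset MvPolynomial
open Pool.Agent.H49.Ent Pool.Agent.H32.Dense Pool.STK Pool.KA Pool.KSAT Pool.K2S Pool.PB Pool.GEN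
open Pool.S6C
open Pool.GRW (tmc_bas bas_part)
open Pool.LA91 (FulC)

variable {m J : ℕ}

/-- **One improvement.** -/
theorem one_clr {S : PCl m} {C₀ : ℝ} (htm : TmC S C₀)
    {L : Finset (Fin m) → Fin m → ℝ → ℝ → ℝ} (hL : LamW S L) {c : ℕ → Fin m}
    (hc : Set.InjOn c (Set.Iio 3)) {k : Fin m} (hactF : Pool.MIC6.ActF S (c 0)) {W x : ℝ}
    (hW0 : 0 < W) (hx : 0 < x) (hcont : ContinuousAt (fun W => L {c 0} (c 1) W 0) W)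
    (hUW : W < L {c 0} (c 1) W 0) (hUD : L {c 0} (c 1) W 0 ≤ L {c 0, c 1} (c 2) W 0)
    (hDx : L {c 0, c 1} (c 2) W 0 + x ≤ 1) {s : ℕ → ℝ} (hs1 : s 1 = L {c 0} (c 1) W 0)
    (hs2 : s 2 = L {c 0, c 1} (c 2) W 0)
    (hbase : ∀ t : ℝ, W < t → t < 1 → Pool.LA91.Ful S {c 0} W t) (hful : FulC S c 1 3 W s) :
    ∃ δ₀ : ℝ, 0 < δ₀ ∧ ∀ δ : ℝ, 0 < δ → δ ≤ δ₀ → ∀ K : ℕ, 1 ≤ K → ∃ e₁ : ℝ, 0 < e₁ ∧
      ∀ e₀ : ℝ, 0 < e₀ → e₀ ≤ e₁ →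
      Bas S (fun J F A => ∀ (V : Type) (z : PtT F → V) (z' : LnT F → V)
        (G : V → MvPolynomial (Option (Fin m)) ℝ) (ρ PG X P : ℕ) (s : ℕ)
        (au cu bv cv θp : PtT F → ℝ) (θs ju jv : LnT F → ℝ),
        LbOK F {c 0, c 1, c 2} k K ⌊δ * J⌋₊ J ⌊W * J⌋₊ ρ PG A z z' G →
        ND F A (c 0) (c 1) (c 2) ⌊W * J⌋₊ ⌊e₀ * J⌋₊ au cu bv cv θp θs ju jv
          (1 / 2 ^ ⌊(L {c 0} (c 1) W 0 - W - e₀) * J⌋₊)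
          (1 / 2 ^ ⌊(L {c 0, c 1} (c 2) W 0 - W - e₀) * J⌋₊) (1 / 2 ^ ⌊x / 2 * J⌋₊) →
        HA F A ⌊W * J⌋₊ (c 0) (c 1) (c 2) au bv θp
          (1 / 2 ^ ⌊(L {c 0} (c 1) W 0 - W - e₀) * J⌋₊)
          (1 / 2 ^ ⌊(L {c 0, c 1} (c 2) W 0 - W - e₀) * J⌋₊) z G (1 / 2 ^ s) → ρ ≤ J →
        X + ⌊x / 8 * J⌋₊ ≤ PG → X + ⌊x / 8 * J⌋₊ ≤ s + ⌊x / 2 * J⌋₊ →
        X + ⌊x / 8 * J⌋₊ ≤ J → ⌊W * J⌋₊ + ⌊x / 8 * J⌋₊ ≤ X → P + ⌊x / 8 * J⌋₊ ≤ X →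
        ∃ B : F.Ω → Prop, Sub B A ∧ Pe F.p A ≤ 288 * cI m * Pe F.p B ∧
          ∀ ρ : ℕ, Lb F {c 0, c 1, c 2} k 1 (3 * ⌊δ * J⌋₊ + 5) J ⌊W * J⌋₊ ρ P B) ∧
      Bas S (fun J F A => ∀ (V : Type) (z : PtT F → V) (z' : LnT F → V)
        (G : V → MvPolynomial (Option (Fin m)) ℝ) (ρ PG s s' : ℕ)
        (au cu bv cv θp : PtT F → ℝ) (θs ju jv : LnT F → ℝ),
        LbOK F {c 0, c 1, c 2} k K ⌊δ * J⌋₊ J ⌊W * J⌋₊ ρ PG A z z' G →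
        ND F A (c 0) (c 1) (c 2) ⌊W * J⌋₊ ⌊e₀ * J⌋₊ au cu bv cv θp θs ju jv
          (1 / 2 ^ ⌊(L {c 0} (c 1) W 0 - W - e₀) * J⌋₊)
          (1 / 2 ^ ⌊(L {c 0, c 1} (c 2) W 0 - W - e₀) * J⌋₊) (1 / 2 ^ ⌊x / 2 * J⌋₊) →
        HA F A ⌊W * J⌋₊ (c 0) (c 1) (c 2) au bv θp
          (1 / 2 ^ ⌊(L {c 0} (c 1) W 0 - W - e₀) * J⌋₊)
          (1 / 2 ^ ⌊(L {c 0, c 1} (c 2) W 0 - W - e₀) * J⌋₊) z G (1 / 2 ^ s) → ρ ≤ J →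
        PG + ⌊δ * J⌋₊ + m + 3 ≤ J → s' + ⌊x / 32 * J⌋₊ + 1 + 2 * ⌊x / 8 * J⌋₊ ≤ PG →
        s' + ⌊x / 32 * J⌋₊ + 1 + 2 * ⌊x / 8 * J⌋₊ ≤ s + ⌊x / 2 * J⌋₊ →
        ⌊W * J⌋₊ ≤ s' + ⌊x / 32 * J⌋₊ →
        ∃ B : F.Ω → Prop, Sub B A ∧ Pe F.p A ≤ 576 * cI m ^ 3 * Pe F.p B ∧
          HA F B ⌊W * J⌋₊ (c 0) (c 1) (c 2) au bv θp
          (1 / 2 ^ ⌊(L {c 0} (c 1) W 0 - W - e₀) * J⌋₊)
          (1 / 2 ^ ⌊(L {c 0, c 1} (c 2) W 0 - W - e₀) * J⌋₊) z G (1 / 2 ^ s')) := by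
  classical
  have h01 : c 0 ≠ c 1 := fun h => by
    have := hc (show (0 : ℕ) < 3 by norm_num) (show (1 : ℕ) < 3 by norm_num) h
    omega
  have h02 : c 0 ≠ c 2 := fun h => by
    have := hc (show (0 : ℕ) < 3 by norm_num) (show (2 : ℕ) < 3 by norm_num) h
    omega
  have h12 : c 1 ≠ c 2 := fun h => by
    have := hc (show (1 : ℕ) < 3 by norm_num) (show (2 : ℕ) < 3 by norm_num) h
    omega
  have hcI : 0 < cI m := cI_pos m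
  obtain ⟨δ₀, hδ₀, hst⟩ := stp_clr (k := k) htm hL h01 h02 h12 hactF hW0 hx hcont hUW hUD hDx
  refine ⟨min δ₀ (x / 1000), lt_min hδ₀ (by linarith only [hx]), ?_⟩
  intro δ hδ hδ' K hK
  have hδx : δ ≤ x / 1000 := hδ'.trans (min_le_right _ _)
  obtain ⟨e₂, he₂, hst2⟩ := hst δ hδ (hδ'.trans (min_le_left _ _))
  obtain ⟨e₁, he₁, hup⟩ := up_clr (k := k) htm hc hW0 hx hUW hUD hDx hs1 hs2 hbase hful K hK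
    (ε := x / 32) (by linarith only [hx])
  refine ⟨min e₂ e₁, lt_min he₂ he₁, ?_⟩
  intro e₀ he₀ hee
  have hS := hst2 e₀ he₀ (hee.trans (min_le_left _ _)) K hK
  have hU := hup e₀ he₀ (hee.trans (min_le_right _ _))
  refine ⟨hS.mono 0 fun J _ F A h V z z' G ρ PG X P s => h V z z' G ρ PG s X P, ?_⟩
  have hU' := bas_part hU (c := 288 * cI m) (by positivity)
  obtain ⟨J₂, hJ₂⟩ := exists_nat_ge ((m + 100) / (x / 16))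
  refine Bas.mono J₂ (hS.and (hU'.and (tmc_bas htm one_pos))) ?_
  rintro J hJ F A ⟨h1, h2, hA, -⟩ V z z' G ρ PG s s' au cu bv cv θp θs ju jv hG hnd hN hρ nG n1 n2
    n3
  have hJ0 : (0 : ℝ) ≤ J := Nat.cast_nonneg J
  have j2 : (J₂ : ℝ) ≤ J := by exact_mod_cast hJ
  have hm0 : (0 : ℝ) ≤ m := Nat.cast_nonneg m
  have k2 : (m : ℝ) + 100 ≤ x / 16 * J := by
    have := hJ₂.trans j2
    rw [div_le_iff₀ (by linarith only [hx])] at this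
    linarith only [this]
  have hcast : ∀ a b : ℕ, (a : ℝ) ≤ b → a ≤ b := fun a b h => by exact_mod_cast h
  have g0 : ∀ z : ℝ, 0 ≤ z → ((⌊z * J⌋₊ : ℕ) : ℝ) ≤ z * J := fun z hz =>
    Nat.floor_le (mul_nonneg hz hJ0)
  have g1 : ∀ z : ℝ, z * J - 1 < ((⌊z * J⌋₊ : ℕ) : ℝ) := fun z => Nat.sub_one_lt_floor _
  obtain ⟨E, hE⟩ : ∃ E, E = ⌊δ * J⌋₊ := ⟨_, rfl⟩
  have hE1 : (E : ℝ) ≤ δ * J := by rw [hE]; exact g0 δ hδ.le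
  obtain ⟨Y, hY⟩ : ∃ Y, Y = ⌊x / 8 * J⌋₊ := ⟨_, rfl⟩
  have hY2 : x / 8 * J - 1 < Y := by rw [hY]; exact g1 _
  obtain ⟨Z, hZ⟩ : ∃ Z, Z = ⌊x / 32 * J⌋₊ := ⟨_, rfl⟩
  obtain ⟨w, hw⟩ : ∃ w, w = ⌊W * J⌋₊ := ⟨_, rfl⟩
  rw [← hY, ← hZ] at n1 n2
  rw [← hw, ← hZ] at n3
  rw [← hE] at nG
  have q1 : δ * J ≤ x / 1000 * J := mul_le_mul_of_nonneg_right hδx hJ0
  have r1 : 3 * E + 5 + m + 3 ≤ 2 * Y := hcast _ _ (by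
    push_cast
    linarith only [hE1, hY2, q1, k2, hm0])
  obtain ⟨B₁, b1, b2, b3⟩ := h1 V z z' G ρ PG s (s' + Z + 1 + Y) (s' + Z + 1) au cu bv cv θp θs ju
    jv hG hnd hN hρ (by rw [← hY]; omega) (by rw [← hY]; omega) (by rw [← hY]; omega)
    (by rw [← hY, ← hw]; omega) (by rw [← hY])
  obtain ⟨V₀, z₀, z₀', G₀, hG₀⟩ := b3 0
  have hκ : (1 : ℝ) / 2 ^ ⌊x / 2 * (J : ℝ)⌋₊ ≤ 1 := by
    rw [div_le_one (by positivity)]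
    exact one_le_pow₀ (by norm_num)
  have hwJ : w ≤ J := by omega
  obtain ⟨B, d1, d2, d3⟩ := h2 B₁ b1 b2 V z z' G V₀ z₀ z₀' G₀ ⌊δ * J⌋₊ (3 * ⌊δ * J⌋₊ + 5) ρ 0 PG
    (s' + Z + 1) au cu bv cv θp θs ju jv _ (hG.sub b1) hG₀ hρ
    (Nat.zero_le _) (by rw [← hE]; omega) (by rw [← hE]; omega) (hnd.sub b1) hκ
  refine ⟨B, fun ω hω => b1 ω (d1 ω hω), ?_, d3.mono ?_⟩
  · have h3 := mul_le_mul_of_nonneg_left d2 (by positivity : (0 : ℝ) ≤ 288 * cI m)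
    calc Pe F.p A ≤ 288 * cI m * Pe F.p B₁ := b2
      _ ≤ 288 * cI m * (2 * cI m ^ 2 * Pe F.p B) := h3
      _ = 576 * cI m ^ 3 * Pe F.p B := by ring
  · rw [← hZ]
    have e1 : (1 : ℝ) / 2 ^ PG ≤ 1 / 2 ^ (s' + Z + 1) := Pool.PB.inv_mono (by omega)
    have e2 : (2 : ℝ) ^ Z * (1 / 2 ^ (s' + Z + 1) + 1 / 2 ^ (s' + Z + 1)) = 1 / 2 ^ s' := by
      rw [pow_succ, pow_add]
      field_simp
      norm_num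
    rw [← e2]
    exact mul_le_mul_of_nonneg_left (by linarith only [e1]) (by positivity)

/-- **The improvements, several times.** -/
theorem itr_clr {S : PCl m} {C₀ : ℝ} (htm : TmC S C₀) {c : ℕ → Fin m} {k : Fin m}
    {W x δ e₀ U D c₁ : ℝ} (hx : 0 < x) (hc₁ : 0 < c₁) {K : ℕ}
    (H : Bas S (fun J F A => ∀ (V : Type) (z : PtT F → V) (z' : LnT F → V)
        (G : V → MvPolynomial (Option (Fin m)) ℝ) (ρ PG s s' : ℕ)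
        (au cu bv cv θp : PtT F → ℝ) (θs ju jv : LnT F → ℝ),
        LbOK F {c 0, c 1, c 2} k K ⌊δ * J⌋₊ J ⌊W * J⌋₊ ρ PG A z z' G →
        ND F A (c 0) (c 1) (c 2) ⌊W * J⌋₊ ⌊e₀ * J⌋₊ au cu bv cv θp θs ju jv
          (1 / 2 ^ ⌊(U - W - e₀) * J⌋₊) (1 / 2 ^ ⌊(D - W - e₀) * J⌋₊) (1 / 2 ^ ⌊x / 2 * J⌋₊) →
        HA F A ⌊W * J⌋₊ (c 0) (c 1) (c 2) au bv θp (1 / 2 ^ ⌊(U - W - e₀) * J⌋₊)
          (1 / 2 ^ ⌊(D - W - e₀) * J⌋₊) z G (1 / 2 ^ s) → ρ ≤ J →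
        PG + ⌊δ * J⌋₊ + m + 3 ≤ J → s' + ⌊x / 32 * J⌋₊ + 1 + 2 * ⌊x / 8 * J⌋₊ ≤ PG →
        s' + ⌊x / 32 * J⌋₊ + 1 + 2 * ⌊x / 8 * J⌋₊ ≤ s + ⌊x / 2 * J⌋₊ →
        ⌊W * J⌋₊ ≤ s' + ⌊x / 32 * J⌋₊ →
        ∃ B : F.Ω → Prop, Sub B A ∧ Pe F.p A ≤ c₁ * Pe F.p B ∧
          HA F B ⌊W * J⌋₊ (c 0) (c 1) (c 2) au bv θp (1 / 2 ^ ⌊(U - W - e₀) * J⌋₊)
          (1 / 2 ^ ⌊(D - W - e₀) * J⌋₊) z G (1 / 2 ^ s'))) (n : ℕ) :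
    Bas S (fun J F A => ∀ (V : Type) (z : PtT F → V) (z' : LnT F → V)
        (G : V → MvPolynomial (Option (Fin m)) ℝ) (ρ PG s T : ℕ)
        (au cu bv cv θp : PtT F → ℝ) (θs ju jv : LnT F → ℝ),
        LbOK F {c 0, c 1, c 2} k K ⌊δ * J⌋₊ J ⌊W * J⌋₊ ρ PG A z z' G →
        ND F A (c 0) (c 1) (c 2) ⌊W * J⌋₊ ⌊e₀ * J⌋₊ au cu bv cv θp θs ju jv
          (1 / 2 ^ ⌊(U - W - e₀) * J⌋₊) (1 / 2 ^ ⌊(D - W - e₀) * J⌋₊) (1 / 2 ^ ⌊x / 2 * J⌋₊) →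
        HA F A ⌊W * J⌋₊ (c 0) (c 1) (c 2) au bv θp (1 / 2 ^ ⌊(U - W - e₀) * J⌋₊)
          (1 / 2 ^ ⌊(D - W - e₀) * J⌋₊) z G (1 / 2 ^ s) → ρ ≤ J →
        PG + ⌊δ * J⌋₊ + m + 3 ≤ J → T + ⌊x / 32 * J⌋₊ + 1 + 2 * ⌊x / 8 * J⌋₊ ≤ PG →
        ⌊W * J⌋₊ ≤ T → ⌊W * J⌋₊ ≤ s + ⌊x / 32 * J⌋₊ →
        ∃ B : F.Ω → Prop, Sub B A ∧ Pe F.p A ≤ c₁ ^ n * Pe F.p B ∧
          HA F B ⌊W * J⌋₊ (c 0) (c 1) (c 2) au bv θp (1 / 2 ^ ⌊(U - W - e₀) * J⌋₊)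
          (1 / 2 ^ ⌊(D - W - e₀) * J⌋₊) z G (1 / 2 ^ min T (s + n * ⌊x / 16 * J⌋₊))) := by
  induction n with
  | zero =>
    refine (tmc_bas htm one_pos).mono 0 fun J _ F A _ => ?_
    intro V z z' G ρ PG s T au cu bv cv θp θs ju jv _ _ hN _ _ _ _ _
    refine ⟨A, fun ω h => h, by rw [pow_zero, one_mul], hN.mono ?_⟩
    exact Pool.PB.inv_mono (by rw [zero_mul, add_zero]; exact min_le_right _ _)
  | succ n ih =>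
    have H' := bas_part H (c := c₁ ^ n) (by positivity)
    obtain ⟨J₂, hJ₂⟩ := exists_nat_ge (100 / (x / 16))
    refine Bas.mono J₂ (ih.and H') ?_
    rintro J hJ F A ⟨h1, h2⟩ V z z' G ρ PG s T au cu bv cv θp θs ju jv hG hnd hN hρ nG n1 n2 n3
    have hJ0 : (0 : ℝ) ≤ J := Nat.cast_nonneg J
    have j2 : (J₂ : ℝ) ≤ J := by exact_mod_cast hJ
    have k2 : (100 : ℝ) ≤ x / 16 * J := by
      have := hJ₂.trans j2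
      rw [div_le_iff₀ (by linarith only [hx])] at this
      linarith only [this]
    have hcast : ∀ a b : ℕ, (a : ℝ) ≤ b → a ≤ b := fun a b h => by exact_mod_cast h
    have g0 : ∀ z : ℝ, 0 ≤ z → ((⌊z * J⌋₊ : ℕ) : ℝ) ≤ z * J := fun z hz =>
      Nat.floor_le (mul_nonneg hz hJ0)
    have g1 : ∀ z : ℝ, z * J - 1 < ((⌊z * J⌋₊ : ℕ) : ℝ) := fun z => Nat.sub_one_lt_floor _
    obtain ⟨B, b1, b2, b3⟩ := h1 V z z' G ρ PG s T au cu bv cv θp θs ju jv hG hnd hN hρ nG n1 n2 n3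
    obtain ⟨g, hg⟩ : ∃ g, g = ⌊x / 16 * J⌋₊ := ⟨_, rfl⟩
    obtain ⟨Y, hY⟩ : ∃ Y, Y = ⌊x / 8 * J⌋₊ := ⟨_, rfl⟩
    obtain ⟨Z, hZ⟩ : ∃ Z, Z = ⌊x / 32 * J⌋₊ := ⟨_, rfl⟩
    obtain ⟨cc, hcc⟩ : ∃ cc, cc = ⌊x / 2 * J⌋₊ := ⟨_, rfl⟩
    have r0 : g + Z + 1 + 2 * Y ≤ cc := hcast _ _ (by
      rw [hg, hZ, hY, hcc]
      push_cast
      have a1 := g0 (x / 16) (by linarith only [hx])
      have a2 := g0 (x / 32) (by linarith only [hx])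
      have a3 := g0 (x / 8) (by linarith only [hx])
      have a4 := g1 (x / 2)
      linarith only [a1, a2, a3, a4, k2])
    rw [← hg] at b3 ⊢
    have e0 : (n + 1) * g = n * g + g := by ring
    have hs1 : min T (s + (n + 1) * g) ≤ T := min_le_left _ _
    have hs2 : min T (s + (n + 1) * g) ≤ min T (s + n * g) + g := by
      rw [e0]
      omega
    have hs3 : ⌊W * (J : ℝ)⌋₊ ≤ min T (s + (n + 1) * g) + Z := by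
      rw [← hZ] at n3
      rw [e0]
      omega
    obtain ⟨B₁, d1, d2, d3⟩ := h2 B b1 b2 V z z' G ρ PG (min T (s + n * g))
      (min T (s + (n + 1) * g)) au cu bv cv θp θs ju jv (hG.sub b1) (hnd.sub b1) b3 hρ nG (by
        rw [← hZ, ← hY] at n1 ⊢
        omega) (by
        rw [← hZ, ← hY, ← hcc]
        omega) (by
        rw [← hZ]
        exact hs3)
    refine ⟨B₁, fun ω hω => b1 ω (d1 ω hω), ?_, d3⟩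
    have h3 := mul_le_mul_of_nonneg_left d2 (by positivity : (0 : ℝ) ≤ c₁ ^ n)
    calc Pe F.p A ≤ c₁ ^ n * Pe F.p B := b2
      _ ≤ c₁ ^ n * (c₁ * Pe F.p B₁) := h3
      _ = c₁ ^ (n + 1) * Pe F.p B₁ := by ring

end Pool.JVE.R6
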