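import Pool.Agent.H6.AFR.Hnr
import Pool.Agent.H62.AFN.Stc

/-!
# One step for labels over three coordinates, without a radius

`stp_far`, `stp_clr`: as `stp_fam`, `stp_cls`, for labels with any radius exponent `ρ ≤ J`.
-/

set_option autoImplicit false

namespace Pool.JVE.R6

open Finset MvPolynomial
open Pool.Agent.H49.Ent Pool.Agent.H32.Dense Pool.STK Pool.KA Pool.KSAT Pool.K2S Pool.PB Pool.GEN
open Pool.S6C
open Pool.MIC6 (dpt dpt_near mvp wt wp wpt wp_eq abs_cls nod_fun Dp)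
open Pool.FLF (Fam.sub)
open Pool.PB.Trl (rt rt_mem t_rt)
open Pool.D2R (hs dd hs_smul_right)
open Pool.GRW (tmc_bas bas_part)

variable {m J : ℕ}

/-- **One step.** -/
theorem stp_far (m K : ℕ) (hK : 1 ≤ K) : ∃ C : ℝ, 1 ≤ C ∧ ∀ {J : ℕ} (F : Fam m J)
    (A : F.Ω → Prop) (_ : 0 < Pe F.p A) {y u v k : Fin m} {E E' T g w ρ PG nU nD s c X P : ℕ}
    {V : Type} {z : PtT F → V} {z' : LnT F → V} {G : V → MvPolynomial (Option (Fin m)) ℝ}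
    {au cu bv cv θp : PtT F → ℝ} {θs ju jv : LnT F → ℝ} {θ sp : ℝ}, y ≠ u → y ≠ v → u ≠ v →
    LbOK F {y, u, v} k K E J w ρ PG A z z' G →
    ND F A y u v w E au cu bv cv θp θs ju jv (1 / 2 ^ nU) (1 / 2 ^ nD) (1 / 2 ^ c) →
    HA F A w y u v au bv θp (1 / 2 ^ nU) (1 / 2 ^ nD) z G (1 / 2 ^ s) →
    nU ≤ nD → w + E + 4 + nD + c ≤ J → ρ ≤ J → 0 ≤ θ →
    (∀ (B : F.Ω → Prop) (hB : 0 < Pe F.p B), Sub B A → Pe F.p A ≤ 16 * Pe F.p B →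
      (Fam.sub F B hB).Tm θ) → C * (θ + 1) ≤ ((J : ℝ) - w) * Real.log 2 →
    (∀ B₀ : F.Ω → Prop, Sub B₀ A → Pe F.p A / 4 < Pe F.p B₀ → Real.log (2 * (K + 2 : ℕ)) <
      CH (Pool.Agent.H49.Ent.cond F.p B₀ True) (fun ω => F.D g ω y) (ptr F J)) →
    C * Real.exp (C * (θ + 1)) ≤ 2 ^ (3 * E) → g * (K + 1) ≤ E →
    (∀ B₁ : F.Ω → Prop, Sub B₁ A → Pe F.p A ≤ 8 * Pe F.p B₁ →
      ∃ B' : F.Ω → Prop, Sub B' B₁ ∧ Pe F.p B₁ / 2 ≤ Pe F.p B' ∧ ∀ ω, B' ω →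
        ∃ ν : Fin 3 → F.Ω, (∀ i, B₁ (ν i) ∧ slam F w (ν i) = slam F w ω) ∧
          ∀ i j, i ≠ j → sp ≤ |au (ptr F J (ν i)) - au (ptr F J (ν j))|) →
    2 * (1 / 2 ^ (5 * E)) * (1 / 2 ^ nU) ≤ sp →
    (∀ (B : F.Ω → Prop) (Q : ℕ) (τ σ : LnT F → ℝ) (b₀ : ℝ) (β : PtT F → ℝ), Sub B A →
      TrN F B y u v w E' (nD + T) nU Q au bv cu cv θp θs τ σ ju b₀ →
      (∀ ω, B ω → |τ (slam F w ω) - β (ptr F J ω)| ≤ 1 / 2 ^ Q) →
      Pe F.p B < 1 / 64 * Pe F.p A) →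
    15 ≤ E → m + 9 ≤ E → 6 * E ≤ E' → T + 6 * E ≤ c → X + 2 * T + 47 * E ≤ PG →
    X + 2 * T + 47 * E ≤ s + c → X + 2 * T + 48 * E ≤ J →
    w + 4 * E ≤ X → P + 5 * E ≤ X →
    ∃ B : F.Ω → Prop, Sub B A ∧ Pe F.p A ≤ 288 * cI m * Pe F.p B ∧
      ∀ ρ : ℕ, Lb F {y, u, v} k 1 (3 * E + 5) J w ρ P B := by
  classical
  obtain ⟨C₁, hC₁, htie⟩ := tie3_r m K hK
  obtain ⟨C₂, hC₂, hafd⟩ := afd_r K
  obtain ⟨C₃, hC₃, hcls⟩ := cls3_r m K
  refine ⟨C₁ + C₂ + C₃, by linarith, ?_⟩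
  intro J F A hA y u v k E E' T g w ρ PG nU nD s c X P V z z' G au cu bv cv θp θs ju jv θ sp hyu hyv huv
    hlab hnd hN2 hUD nJ hρ hθ hTm hJ hact hN hgK hnod hsp htr hE hmE hEE hcE nP ns nX nw nP'
  obtain ⟨C, hC⟩ : ∃ C, C = C₁ + C₂ + C₃ := ⟨_, rfl⟩
  rw [← hC] at hJ hN
  have hC1 : C₁ ≤ C := by linarith
  have hC2 : C₂ ≤ C := by linarith
  have hC3 : C₃ ≤ C := by linarith
  have hC0 : 0 ≤ C := by linarith
  have hwJ : w ≤ J := by omega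
  have hg : g ≤ E := le_trans (Nat.le_mul_of_pos_right g (Nat.succ_pos K)) hgK
  have hmono : ∀ C' : ℝ, 1 ≤ C' → C' ≤ C → C' * Real.exp (C' * (θ + 1)) ≤ 2 ^ (3 * E) := by
    intro C' h1 h2
    exact (mul_le_mul h2 (Real.exp_le_exp.2 (mul_le_mul_of_nonneg_right h2 (by linarith)))
      (Real.exp_pos _).le hC0).trans hN
  have hmonoJ : ∀ C' : ℝ, C' ≤ C → C' * (θ + 1) ≤ ((J : ℝ) - w) * Real.log 2 := fun C' h =>
    (mul_le_mul_of_nonneg_right h (by linarith)).trans hJ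
  have hCN : C₂ ≤ 2 ^ (3 * E) := by
    refine le_trans ?_ (hmono C₂ hC₂ hC2)
    exact le_mul_of_one_le_right (by linarith) (Real.one_le_exp (by positivity))
  have two : ∀ {a b c : ℕ}, a + c ≤ b → (2 : ℝ) ^ a / 2 ^ b ≤ 1 / 2 ^ c := by
    intro a b c h
    rw [div_le_div_iff₀ (by positivity) (by positivity), one_mul, ← pow_add]
    exact pow_le_pow_right₀ (by norm_num) h
  have mulp : ∀ a b : ℕ, (1 : ℝ) / 2 ^ a * (1 / 2 ^ b) = 1 / 2 ^ (a + b) := by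
    intro a b
    rw [pow_add]
    field_simp
  have le1 : ∀ a : ℕ, (1 : ℝ) / 2 ^ a ≤ 1 := fun a => by
    rw [div_le_one (by positivity)]
    exact one_le_pow₀ (by norm_num)
  have pU : (0 : ℝ) < 1 / 2 ^ nU := by positivity
  have pD : (0 : ℝ) < 1 / 2 ^ nD := by positivity
  have hκU : (2 : ℝ) ^ (w + E + 4) / 2 ^ J ≤ 1 / 2 ^ c * (1 / 2 ^ nU) := by
    rw [mulp]
    exact two (by omega)
  have hκD : (2 : ℝ) ^ (w + E + 4) / 2 ^ J ≤ 1 / 2 ^ c * (1 / 2 ^ nD) := by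
    rw [mulp]
    exact two (by omega)
  obtain ⟨A', a1, a2, a3, a4⟩ := htie F A hA (y := y) (u := u) (v := v) (k := k) (e := E) (w := w)
    (ρ := ρ) (P := PG) (g := g) (N := 3 * E) (R := X + 2 * T + 42 * E) (s := s) (c := c) (θ := θ) hyu hyv
    huv hlab hnd pU (le1 _) pD hκU hκD hN2 hwJ hρ (by omega) hθ (hTm A hA (fun ω h => h)
      (by linarith)) (hmonoJ C₁ hC1) hact (hmono C₁ hC₁ hC1) (by omega) (by omega) (by omega)
    (by omega)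
  have hA'0 : 0 < Pe F.p A' := by linarith
  obtain ⟨d1, d2, d3, d4⟩ := hafd F (A' := A') (k := k) (e := E) (w := w) (ρ := ρ) (P := PG)
    (N := 3 * E) (R := X + 2 * T + 42 * E) (R' := X + 2 * T + 38 * E) (s := s) (c := c) a1 hyu hyv huv hlab hnd
    hκU hκD hN2 hwJ hρ (by omega) a3 pU (le1 _) pD hCN (by omega) (by omega)
  obtain ⟨big, hbig⟩ : ∃ big : F.Ω → Prop, big = fun ω => A' ω ∧
    (1 / 2 ^ X ≤ |Au F w z G u v θp (1 / 2 ^ nU) ω| ∨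
      1 / 2 ^ X ≤ |Av F w z G v (1 / 2 ^ nD) ω|) := ⟨_, rfl⟩
  obtain ⟨sml, hsml⟩ : ∃ sml : F.Ω → Prop, sml = fun ω => A' ω ∧
    (|Au F w z G u v θp (1 / 2 ^ nU) ω| ≤ 1 / 2 ^ X ∧
      |Av F w z G v (1 / 2 ^ nD) ω| ≤ 1 / 2 ^ X) := ⟨_, rfl⟩
  have hbA' : Sub big A' := fun ω hω => by
    rw [hbig] at hω
    exact hω.1
  have hsA' : Sub sml A' := fun ω hω => by
    rw [hsml] at hω
    exact hω.1
  have hcov := pe_or F.isLaw (A := A') (B₀ := big) (B₁ := sml) (fun ω hω => by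
    rw [hbig, hsml]
    by_cases h1 : 1 / 2 ^ X ≤ |Au F w z G u v θp (1 / 2 ^ nU) ω|
    · exact Or.inl ⟨hω, Or.inl h1⟩
    · by_cases h2 : 1 / 2 ^ X ≤ |Av F w z G v (1 / 2 ^ nD) ω|
      · exact Or.inl ⟨hω, Or.inr h2⟩
      · exact Or.inr ⟨hω, (not_le.1 h1).le, (not_le.1 h2).le⟩)
  by_cases hcase : Pe F.p A' / 2 ≤ Pe F.p big
  · exfalso
    obtain ⟨B', b1, b2, b3⟩ := hnod big (fun ω hω => a1 ω (hbA' ω hω)) (by linarith)
    have h1 := big_fam a1 hyu hyv huv hnd d1 hUD hE hEE hcE hsp (B' := B')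
      (fun ω hω => hbA' ω (b1 ω hω)) (fun ω hω => by
        have h2 := b1 ω hω
        rw [hbig] at h2
        exact h2.2) (fun ω hω => by
        obtain ⟨ν, e1, e2⟩ := b3 ω hω
        exact ⟨ν, fun i => ⟨hbA' _ (e1 i).1, (e1 i).2⟩, e2⟩) htr
    linarith
  · push Not at hcase
    have hs0 : 0 < Pe F.p sml := by linarith
    have hs8 : Pe F.p A ≤ 8 * Pe F.p sml := by linarith
    have hsA : Sub sml A := fun ω hω => a1 ω (hsA' ω hω)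
    obtain ⟨B, b1, b2, b3⟩ := hcls F sml hs0 (y := y) (u := u) (v := v) (k := k) (e := E) (w := w)
      (ρ := ρ) (PG := PG) (M' := X - w - 3 * E - 6) (N := 3 * E) (x := X) (R := X + 2 * T + 42 * E)
      (R' := X + 2 * T + 38 * E) (P := P) (c := c) (θ := θ) hyu hyv huv (hlab.sub hsA) (hnd.sub hsA) hwJ
      pU (le1 _) pD (le1 _) (fun ω hω => by
        rw [hsml] at hω
        exact hω.2) (fun ω hω => d2 ω (hsA' ω hω)) (fun ω hω => d3 ω (hsA' ω hω))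
      (fun ω hω => d4 ω (hsA' ω hω)) (fun ω hω => a4 ω (hsA' ω hω)) hθ (fun B hB hBs hBP =>
        hTm B hB (fun ω hω => hsA ω (hBs ω hω)) (by linarith)) (hmonoJ C₃ hC3)
      (hmono C₃ hC₃ hC3) (by omega) (by omega) (by omega) (by omega) (by omega) (by omega)
    refine ⟨B, fun ω hω => hsA ω (b1 ω hω), ?_, b3⟩
    calc Pe F.p A ≤ 8 * Pe F.p sml := hs8
      _ ≤ 8 * (36 * cI m * Pe F.p B) := mul_le_mul_of_nonneg_left b2 (by norm_num)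
      _ = 288 * cI m * Pe F.p B := by ring

/-- **One step, in a class.** -/
theorem stp_clr {S : PCl m} {C₀ : ℝ} (htm : TmC S C₀)
    {L : Finset (Fin m) → Fin m → ℝ → ℝ → ℝ} (hL : LamW S L) {y u v k : Fin m} (hyu : y ≠ u)
    (hyv : y ≠ v) (huv : u ≠ v) (hactF : Pool.MIC6.ActF S y) {W x : ℝ} (hW0 : 0 < W) (hx : 0 < x)
    (hcont : ContinuousAt (fun W => L {y} u W 0) W) (hUW : W < L {y} u W 0)
    (hUD : L {y} u W 0 ≤ L {y, u} v W 0) (hDx : L {y, u} v W 0 + x ≤ 1) :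
    ∃ δ₀ : ℝ, 0 < δ₀ ∧ ∀ δ : ℝ, 0 < δ → δ ≤ δ₀ → ∃ e₂ : ℝ, 0 < e₂ ∧ ∀ e₀ : ℝ, 0 < e₀ →
      e₀ ≤ e₂ → ∀ K : ℕ, 1 ≤ K → Bas S (fun J F A => ∀ (V : Type) (z : PtT F → V) (z' : LnT F → V)
        (G : V → MvPolynomial (Option (Fin m)) ℝ) (ρ PG s X P : ℕ)
        (au cu bv cv θp : PtT F → ℝ) (θs ju jv : LnT F → ℝ),
        LbOK F {y, u, v} k K ⌊δ * J⌋₊ J ⌊W * J⌋₊ ρ PG A z z' G →
        ND F A y u v ⌊W * J⌋₊ ⌊e₀ * J⌋₊ au cu bv cv θp θs ju jv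
          (1 / 2 ^ ⌊(L {y} u W 0 - W - e₀) * J⌋₊) (1 / 2 ^ ⌊(L {y, u} v W 0 - W - e₀) * J⌋₊)
          (1 / 2 ^ ⌊x / 2 * J⌋₊) →
        HA F A ⌊W * J⌋₊ y u v au bv θp (1 / 2 ^ ⌊(L {y} u W 0 - W - e₀) * J⌋₊)
          (1 / 2 ^ ⌊(L {y, u} v W 0 - W - e₀) * J⌋₊) z G (1 / 2 ^ s) → ρ ≤ J →
        X + ⌊x / 8 * J⌋₊ ≤ PG → X + ⌊x / 8 * J⌋₊ ≤ s + ⌊x / 2 * J⌋₊ →
        X + ⌊x / 8 * J⌋₊ ≤ J → ⌊W * J⌋₊ + ⌊x / 8 * J⌋₊ ≤ X → P + ⌊x / 8 * J⌋₊ ≤ X →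
        ∃ B : F.Ω → Prop, Sub B A ∧ Pe F.p A ≤ 288 * cI m * Pe F.p B ∧
          ∀ ρ : ℕ, Lb F {y, u, v} k 1 (3 * ⌊δ * J⌋₊ + 5) J ⌊W * J⌋₊ ρ P B) := by
  classical
  obtain ⟨U, hU⟩ : ∃ U, U = L {y} u W 0 := ⟨_, rfl⟩
  obtain ⟨D, hD⟩ : ∃ D, D = L {y, u} v W 0 := ⟨_, rfl⟩
  rw [← hU] at hUW hUD
  rw [← hD] at hUD hDx
  rw [← hU, ← hD]
  -- the visible slope
  obtain ⟨d, hd0, htr⟩ := tr_nat hL (y := y) (u := u) (v := v) hyu (W := W) (r := 0)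
    (s := x / 64) hW0.le (by linarith) (by rw [← hD]; linarith) (by rw [← hD]; linarith)
  rw [← hD] at htr
  obtain ⟨τd', hτd, htrB⟩ := htr d hd0 le_rfl
  refine ⟨min (min (x / 6400) (d / 8)) (min ((U - W) / 64) (W / 4)), lt_min (lt_min
    (by linarith) (by linarith)) (lt_min (by linarith) (by linarith)), ?_⟩
  intro δ hδ0 hδm
  have hδx : 6400 * δ ≤ x := by
    have := hδm.trans ((min_le_left _ _).trans (min_le_left _ _))
    linarith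
  have hδd : 8 * δ ≤ d := by
    have := hδm.trans ((min_le_left _ _).trans (min_le_right _ _))
    linarith
  have hδU : 64 * δ ≤ U - W := by
    have := hδm.trans ((min_le_right _ _).trans (min_le_left _ _))
    linarith
  have hδW : 4 * δ ≤ W := by
    have := hδm.trans ((min_le_right _ _).trans (min_le_right _ _))
    linarith
  -- the finer window
  obtain ⟨η, hη, hηc⟩ := Metric.continuousAt_iff.1 hcont δ hδ0
  obtain ⟨o, hod⟩ : ∃ o, o = min (δ / 2) (η / 2) := ⟨_, rfl⟩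
  have ho0 : 0 < o := by
    rw [hod]
    exact lt_min (by linarith only [hδ0]) (by linarith only [hη])
  have ho1 : o ≤ δ / 2 := by rw [hod]; exact min_le_left _ _
  have ho2 : o ≤ η / 2 := by rw [hod]; exact min_le_right _ _
  obtain ⟨W₂, hW₂⟩ : ∃ W₂, W₂ = W + o := ⟨_, rfl⟩
  obtain ⟨U₂, hU₂⟩ : ∃ U₂, U₂ = L {y} u W₂ 0 := ⟨_, rfl⟩
  have hUU₂ : |U₂ - U| < δ := by
    have h1 := @hηc W₂ (by
      rw [Real.dist_eq, hW₂]
      have : W + o - W = o := by ring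
      rw [this, abs_of_pos ho0]
      linarith only [ho2, hη])
    rw [Real.dist_eq] at h1
    rw [hU₂, hU]
    exact h1
  rw [abs_lt] at hUU₂
  obtain ⟨hUa, hUb⟩ := hUU₂
  obtain ⟨d₁, hd₁0, habs⟩ := abs_cls htm hL (y := y) (v := u) (W := W₂) (s := δ)
    (by rw [hW₂]; linarith only [hW0, ho0]) hδ0
    (by rw [← hU₂, hW₂]; linarith only [hδU, hUa, ho1, hδ0])
    (by rw [← hU₂]; linarith only [hUb, hUD, hDx, hδx, hδ0])
  rw [← hU₂] at habs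
  refine ⟨min d₁ (δ / 4), lt_min hd₁0 (by linarith only [hδ0]), ?_⟩
  intro e₀ he₀0 he₀2 K hK
  have he₀d : e₀ ≤ d₁ := he₀2.trans (min_le_left _ _)
  have he₀δ : e₀ ≤ δ / 4 := he₀2.trans (min_le_right _ _)
  obtain ⟨C, hC, hstp⟩ := stp_far m K hK
  have hK0 : (0 : ℝ) ≤ K := Nat.cast_nonneg K
  -- the statements of the class
  obtain ⟨γ, hγ⟩ : ∃ γ, γ = δ / (2 * (K + 1)) := ⟨_, rfl⟩
  have hγ0 : 0 < γ := by rw [hγ]; positivity
  have hγδ : γ * (K + 1) = δ / 2 := by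
    rw [hγ]
    field_simp
  obtain ⟨ψ, hψ⟩ : ∃ ψ, ψ = min (δ / (2 * C)) ((1 - W) / (4 * C)) := ⟨_, rfl⟩
  have hW1 : W < 1 := by linarith
  have hψ0 : 0 < ψ := by
    rw [hψ]
    exact lt_min (by positivity) (div_pos (by linarith) (by linarith))
  have hψ1 : C * ψ ≤ δ / 2 := by
    have : ψ ≤ δ / (2 * C) := by rw [hψ]; exact min_le_left _ _
    rw [le_div_iff₀ (by linarith)] at this
    linarith
  have hψ2 : C * ψ ≤ (1 - W) / 4 := by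
    have : ψ ≤ (1 - W) / (4 * C) := by rw [hψ]; exact min_le_right _ _
    rw [le_div_iff₀ (by linarith)] at this
    linarith
  obtain ⟨c, hc0, hcB⟩ := hactF γ hγ0
  have H1 := tm_part htm hψ0 (c := 16) (by norm_num)
  have H2 := bas_part hcB (c := 4) (by norm_num)
  have H3 := bas_part (habs e₀ he₀0 he₀d) (c := 32) (by norm_num)
  obtain ⟨J₁, hJ₁⟩ := exists_nat_ge ((Real.log C + C + 1000 + m) / δ)
  obtain ⟨J₂, hJ₂⟩ := exists_nat_ge ((Real.log (2 * (K + 2 : ℕ)) + 1) / c)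
  obtain ⟨J₃, hJ₃⟩ := exists_nat_ge (Real.log 65 / τd')
  obtain ⟨J₄, hJ₄⟩ := exists_nat_ge (4 * C / (1 - W))
  refine Bas.mono (J₁ + J₂ + J₃ + J₄) (((tmc_bas htm hψ0).and (H1.and H2)).and
    (H3.and htrB)) ?_
  rintro J hJ F A ⟨⟨⟨hA, -⟩, h1, h2⟩, h3, h4⟩ V z z' G ρ PG s X P au cu bv cv θp θs ju jv hlab hnd
    hN2 hρ nP ns nX nw nP'
  have hJ0 : (0 : ℝ) ≤ J := Nat.cast_nonneg J
  have j1 : (J₁ : ℝ) ≤ J := by exact_mod_cast (by omega : J₁ ≤ J)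
  have j2 : (J₂ : ℝ) ≤ J := by exact_mod_cast (by omega : J₂ ≤ J)
  have j3 : (J₃ : ℝ) ≤ J := by exact_mod_cast (by omega : J₃ ≤ J)
  have j4 : (J₄ : ℝ) ≤ J := by exact_mod_cast (by omega : J₄ ≤ J)
  have hlogC : 0 ≤ Real.log C := Real.log_nonneg hC
  have hm0 : (0 : ℝ) ≤ m := Nat.cast_nonneg m
  have k1 : Real.log C + C + 1000 + m ≤ δ * J := by
    have := hJ₁.trans j1
    rw [div_le_iff₀ hδ0] at this
    linarith
  have k2 : Real.log (2 * (K + 2 : ℕ)) + 1 ≤ c * J := by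
    have := hJ₂.trans j2
    rw [div_le_iff₀ hc0] at this
    linarith
  have k3 : Real.log 65 ≤ τd' * J := by
    have := hJ₃.trans j3
    rw [div_le_iff₀ hτd] at this
    linarith
  have k4 : 4 * C ≤ (1 - W) * J := by
    have := hJ₄.trans j4
    rw [div_le_iff₀ (by linarith)] at this
    linarith
  -- the numbers
  have hcast : ∀ a b : ℕ, (a : ℝ) ≤ b → a ≤ b := fun a b h => by exact_mod_cast h
  have g0 : ∀ z : ℝ, 0 ≤ z → ((⌊z * J⌋₊ : ℕ) : ℝ) ≤ z * J := fun z hz =>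
    Nat.floor_le (mul_nonneg hz hJ0)
  have g1 : ∀ z : ℝ, z * J - 1 < ((⌊z * J⌋₊ : ℕ) : ℝ) := fun z => Nat.sub_one_lt_floor _
  have kk : 1000 + (m : ℝ) + 1 ≤ δ * J := by linarith only [k1, hlogC, hC]
  obtain ⟨E, hE⟩ : ∃ E, E = ⌊δ * J⌋₊ := ⟨_, rfl⟩
  have hE1 : (E : ℝ) ≤ δ * J := by rw [hE]; exact g0 δ hδ0.le
  have hE2 : δ * J - 1 < E := by rw [hE]; exact g1 δ
  obtain ⟨w, hw⟩ : ∃ w, w = ⌊W * J⌋₊ := ⟨_, rfl⟩
  have hw1 : (w : ℝ) ≤ W * J := by rw [hw]; exact g0 W hW0.le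
  have hw2 : W * J - 1 < w := by rw [hw]; exact g1 W
  obtain ⟨nU, hnU⟩ : ∃ nU, nU = ⌊(U - W - e₀) * J⌋₊ := ⟨_, rfl⟩
  have hnU1 : (nU : ℝ) ≤ (U - W - e₀) * J := by
    rw [hnU]
    exact g0 _ (by linarith only [hδU, hδ0, he₀δ])
  have hnU2 : (U - W - e₀) * J - 1 < nU := by rw [hnU]; exact g1 _
  obtain ⟨nD, hnD⟩ : ∃ nD, nD = ⌊(D - W - e₀) * J⌋₊ := ⟨_, rfl⟩
  have hnD1 : (nD : ℝ) ≤ (D - W - e₀) * J := by
    rw [hnD]
    exact g0 _ (by linarith only [hδU, hδ0, he₀δ, hUD])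
  have hnD2 : (D - W - e₀) * J - 1 < nD := by rw [hnD]; exact g1 _
  have q0 : e₀ * J ≤ δ / 4 * J := mul_le_mul_of_nonneg_right he₀δ hJ0
  have q0' : 0 ≤ e₀ * J := mul_nonneg he₀0.le hJ0
  obtain ⟨T, hT⟩ : ∃ T, T = ⌊x / 32 * J⌋₊ := ⟨_, rfl⟩
  have hT1 : (T : ℝ) ≤ x / 32 * J := by rw [hT]; exact g0 _ (by linarith only [hx])
  have hT2 : x / 32 * J - 1 < T := by rw [hT]; exact g1 _
  obtain ⟨Y, hY⟩ : ∃ Y, Y = ⌊x / 8 * J⌋₊ := ⟨_, rfl⟩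
  have hY1 : (Y : ℝ) ≤ x / 8 * J := by rw [hY]; exact g0 _ (by linarith only [hx])
  have hY2 : x / 8 * J - 1 < Y := by rw [hY]; exact g1 _
  obtain ⟨cc, hcc⟩ : ∃ cc, cc = ⌊x / 2 * J⌋₊ := ⟨_, rfl⟩
  have hcc1 : (cc : ℝ) ≤ x / 2 * J := by rw [hcc]; exact g0 _ (by linarith only [hx])
  have hcc2 : x / 2 * J - 1 < cc := by rw [hcc]; exact g1 _
  obtain ⟨E', hE'⟩ : ∃ E', E' = ⌊d * J⌋₊ := ⟨_, rfl⟩
  have hE'2 : d * J - 1 < E' := by rw [hE']; exact g1 _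
  obtain ⟨sp, hsp⟩ : ∃ sp, sp = ⌊(U₂ - W₂ + δ) * J⌋₊ := ⟨_, rfl⟩
  have hsp1 : (sp : ℝ) ≤ (U₂ - W₂ + δ) * J := by
    rw [hsp]
    exact g0 _ (by rw [hW₂]; linarith only [hδU, hδ0, hUa, ho1])
  have q1 : 6400 * (δ * J) ≤ x * J := by
    have := mul_le_mul_of_nonneg_right hδx hJ0
    linarith only [this]
  have q2 : 8 * (δ * J) ≤ d * J := by
    have := mul_le_mul_of_nonneg_right hδd hJ0
    linarith only [this]
  have q3 : 64 * (δ * J) ≤ (U - W) * J := by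
    have := mul_le_mul_of_nonneg_right hδU hJ0
    linarith only [this]
  have q4 : U * J ≤ D * J := mul_le_mul_of_nonneg_right hUD hJ0
  have q5 : (D + x) * J ≤ 1 * J := mul_le_mul_of_nonneg_right hDx hJ0
  have q6 : U₂ * J ≤ (U + δ) * J := mul_le_mul_of_nonneg_right (by linarith only [hUb]) hJ0
  have q7 : o * J ≤ δ / 2 * J := mul_le_mul_of_nonneg_right ho1 hJ0
  have q8 : 0 ≤ o * J := mul_nonneg ho0.le hJ0
  have q9 : W₂ * J = W * J + o * J := by rw [hW₂]; ring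
  have hes : ⌊e₀ * (J : ℝ)⌋₊ ≤ E := by
    rw [hE]
    exact Nat.floor_le_floor (mul_le_mul_of_nonneg_right (by linarith only [he₀δ, hδ0]) hJ0)
  rw [← hE, ← hw] at hlab
  rw [← hw, ← hnU, ← hnD, ← hcc] at hnd
  rw [← hw, ← hnU, ← hnD] at hN2
  rw [← hY] at nP ns nX nw nP'
  rw [← hcc] at ns
  rw [← hw] at nw
  rw [← hE, ← hw]
  have hAB : Sub A A := fun ω h => h
  -- the seven numbers
  have n1 : nU ≤ nD := by
    rw [hnU, hnD]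
    exact Nat.floor_le_floor (mul_le_mul_of_nonneg_right (by linarith only [hUD]) hJ0)
  have n2 : w + E + 4 + nD + cc ≤ J := hcast _ _ (by
    push_cast
    linarith only [hw1, hE1, hnD1, hcc1, q0', q1, q5, kk, hm0])
  have n3 : C * (ψ * J + 1) ≤ ((J : ℝ) - w) * Real.log 2 := by
    have l2 := Real.log_two_gt_d9
    have r1 : C * (ψ * J) ≤ (1 - W) / 4 * J := by
      have := mul_le_mul_of_nonneg_right hψ2 hJ0
      linarith only [this]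
    have r2 : (1 - W) * J ≤ (J : ℝ) - w := by linarith only [hw1]
    have r3 : 0 ≤ (1 - W) * J := mul_nonneg (by linarith only [hW1]) hJ0
    have r4 : (1 - W) * J / 2 ≤ ((J : ℝ) - w) * Real.log 2 := by
      calc (1 - W) * J / 2 = (1 - W) * J * (1 / 2) := by ring
        _ ≤ ((J : ℝ) - w) * Real.log 2 :=
          mul_le_mul r2 (by linarith only [l2]) (by norm_num) (by linarith only [r2, r3])
    linarith only [r1, r4, k4]
  have n4 : C * Real.exp (C * (ψ * J + 1)) ≤ 2 ^ (3 * E) := by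
    have r1 : C * (ψ * J) ≤ δ / 2 * J := by
      have := mul_le_mul_of_nonneg_right hψ1 hJ0
      linarith only [this]
    refine exp_num (E' := Real.log C + C + δ / 2 * J) hC (by linarith only [r1]) ?_ rfl
    linarith only [k1, hE2, hm0]
  have n5 : ⌊γ * (J : ℝ)⌋₊ * (K + 1) ≤ E := hcast _ _ (by
    push_cast
    have r1 := mul_le_mul_of_nonneg_right (g0 γ hγ0.le) (by linarith only [hK0] : (0 : ℝ) ≤ K + 1)
    have r2 : γ * J * (K + 1) = δ / 2 * J := by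
      rw [← hγδ]
      ring
    linarith only [r1, r2, hE2, kk, hm0])
  have n6 : 2 * (1 / 2 ^ (5 * E)) * (1 / 2 ^ nU) ≤ (1 : ℝ) / 2 ^ sp := by
    have r1 : sp + 1 ≤ 5 * E + nU := hcast _ _ (by
      push_cast
      linarith only [hsp1, q6, q8, q9, hE2, hnU2, q0, kk, hm0])
    have r2 : (2 : ℝ) * (1 / 2 ^ (5 * E)) * (1 / 2 ^ nU) = 2 ^ 1 / 2 ^ (5 * E + nU) := by
      rw [pow_add]
      field_simp
    rw [r2, div_le_div_iff₀ (by positivity) (by positivity), one_mul, ← pow_add]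
    exact pow_le_pow_right₀ (by norm_num) (by omega)
  have n7 : 15 ≤ E := hcast _ _ (by
    push_cast
    linarith only [hE2, kk, hm0])
  have n8 : m + 9 ≤ E := hcast _ _ (by
    push_cast
    linarith only [hE2, kk, hm0])
  have n9 : 6 * E ≤ E' := hcast _ _ (by
    push_cast
    linarith only [hE1, hE'2, q2, kk, hm0])
  have n10 : T + 6 * E ≤ cc := hcast _ _ (by
    push_cast
    linarith only [hE1, hT1, hcc2, q1, kk, hm0])
  have n11 : 2 * T + 48 * E ≤ Y := hcast _ _ (by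
    push_cast
    linarith only [hE1, hT1, hY2, q1, kk, hm0])
  -- the velocities
  have hww : ∀ ω ω' : F.Ω, slam F ⌊W₂ * (J : ℝ)⌋₊ ω = slam F ⌊W₂ * (J : ℝ)⌋₊ ω' →
      slam F w ω = slam F w ω' := by
    intro ω ω' h
    have r1 : w ≤ ⌊W₂ * (J : ℝ)⌋₊ := by
      rw [hw]
      exact Nat.floor_le_floor (mul_le_mul_of_nonneg_right (by linarith only [hW₂, ho0]) hJ0)
    have r2 : ⌊W₂ * (J : ℝ)⌋₊ ≤ J := hcast _ _ (by
      refine (g0 W₂ (by linarith only [hW₂, ho0, hW0])).trans ?_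
      linarith only [q9, q7, q3, q4, q5, q1, kk, hm0])
    rw [slam_coarse F r1 r2 ω, slam_coarse F r1 r2 ω', h]
  have hnod : ∀ B₁ : F.Ω → Prop, Sub B₁ A → Pe F.p A ≤ 8 * Pe F.p B₁ →
      ∃ B' : F.Ω → Prop, Sub B' B₁ ∧ Pe F.p B₁ / 2 ≤ Pe F.p B' ∧ ∀ ω, B' ω →
        ∃ ν : Fin 3 → F.Ω, (∀ i, B₁ (ν i) ∧ slam F w (ν i) = slam F w ω) ∧
          ∀ i j, i ≠ j → 1 / 2 ^ sp ≤ |au (ptr F J (ν i)) - au (ptr F J (ν j))| := by
    intro B₁ hB₁ hPB₁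
    have hB₁0 : 0 < Pe F.p B₁ := by linarith only [hPB₁, hA]
    obtain ⟨B', d1, d2, d3⟩ := nod_fun 2 (F := F) (B := B₁)
      (Φ := slam F ⌊W₂ * (J : ℝ)⌋₊) (f := fun ω => au (ptr F J ω))
      (s := 1 / 2 ^ sp) hB₁0 (fun B₀ hB₀ hPB₀ jj hjj => by
        have hs : Sub B₀ A := fun ω hω => hB₁ ω (hB₀ ω hω)
        refine h3 B₀ hs (by
          push_cast at hPB₀
          linarith only [hPB₀, hPB₁]) au cu (cc + nU) ?_ ?_ jj (by
          rw [← hsp]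
          exact hjj)
        · intro ω hω
          refine ⟨(hnd.hbu ω (hs ω hω)).1, (hnd.hbu ω (hs ω hω)).2, ?_⟩
          refine (hnd.vu ω (hs ω hω)).trans (le_of_eq ?_)
          rw [pow_add]
          field_simp
        · rw [← hsp]
          exact hcast _ _ (by
            push_cast
            linarith only [hsp1, q6, q8, q9, hcc2, hnU2, q0, q1, kk, hm0]))
    refine ⟨B', d1, d2, fun ω hω => ?_⟩
    obtain ⟨ν, e1, e2⟩ := d3 ω hω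
    exact ⟨ν, fun i => ⟨(e1 i).1, hww _ _ (e1 i).2⟩, e2⟩
  have htr' : ∀ (B : F.Ω → Prop) (Q : ℕ) (τ σ : LnT F → ℝ) (b₀ : ℝ) (β : PtT F → ℝ), Sub B A →
      TrN F B y u v w E' (nD + T) nU Q au bv cu cv θp θs τ σ ju b₀ →
      (∀ ω, B ω → |τ (slam F w ω) - β (ptr F J ω)| ≤ 1 / 2 ^ Q) →
      Pe F.p B < 1 / 64 * Pe F.p A := by
    intro B Q τ σ b₀ β hB hT' hβ
    rw [hw] at hT' hβ
    rw [hE'] at hT'
    have r1 := h4 B (nD + T) nU Q au bv cu cv θp θs τ σ ju b₀ hB hT' (hcast _ _ (by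
      push_cast
      refine (g0 _ (by linarith only [hUD, hUW, hx])).trans ?_
      linarith only [hnD2, hT2, q0, q1, kk, hm0])) β hβ
    have r2 : Real.exp (-(τd' * J)) ≤ 1 / 65 := by
      rw [Real.exp_neg, one_div]
      refine inv_anti₀ (by norm_num) ?_
      rw [← Real.exp_log (by norm_num : (0 : ℝ) < 65)]
      exact Real.exp_le_exp.2 k3
    have r3 := mul_le_mul_of_nonneg_right r2 hA.le
    linarith only [r1, r3, hA]
  -- hact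
  have hact : ∀ B₀ : F.Ω → Prop, Sub B₀ A → Pe F.p A / 4 < Pe F.p B₀ →
      Real.log (2 * (K + 2 : ℕ)) < CH (Pool.Agent.H49.Ent.cond F.p B₀ True)
        (fun ω => F.D ⌊γ * J⌋₊ ω y) (ptr F J) := by
    intro B₀ hB₀ hPB₀
    have r1 := h2 B₀ hB₀ (by linarith only [hPB₀])
    linarith only [r1, k2]
  exact hstp F A hA (E := E) (E' := E') (T := T) (g := ⌊γ * J⌋₊) (w := w)
    (ρ := ρ) (PG := PG) (nU := nU) (nD := nD) (s := s) (c := cc) (X := X) (P := P)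
    (θ := ψ * J) (sp := 1 / 2 ^ sp) hyu hyv huv hlab (hnd.mono_e hes) hN2 n1 n2 hρ (by positivity)
    (fun B hB hBA hBP => h1 B hB hBA hBP) n3 hact n4 n5 hnod n6 htr' n7 n8 n9 n10 (by omega)
    (by omega) (by omega) (by omega) (by omega)

end Pool.JVE.R6
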