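import Pool.Agent.H6.AFR.Onr

/-!
# Affine labels over three coordinates in a class, without a radius

`aff_tcr`: `aff_tcn` for numbers of the class at any radius exponent `r' < 1`: a closed label of `k`
over `y`, `u`, `v` in the balls of a class may be taken affine, of the full precision, also when the
radius of the label is much smaller than the window.
-/

set_option autoImplicit false

namespace Pool.JVE.R6

open Finset MvPolynomial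
open Pool.Agent.H49.Ent Pool.Agent.H32.Dense Pool.STK Pool.KA Pool.KSAT Pool.K2S Pool.PB Pool.GEN
open Pool.S6C
open Pool.GRW (tmc_bas bas_part)
open Pool.LA91 (FulC)

variable {m J : ℕ}

/-- **Affine labels over three coordinates in a class**, in natural letters. -/
theorem aff_tcr {S : PCl m} {C₀ : ℝ} (htm : TmC S C₀)
    {L : Finset (Fin m) → Fin m → ℝ → ℝ → ℝ} (hL : LamW S L) {c : ℕ → Fin m}
    (hc : Set.InjOn c (Set.Iio 3)) {k : Fin m} (hactF : Pool.MIC6.ActF S (c 0))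
    {W' W r' x q : ℝ} (hW' : W' < W) (hW0 : 0 < W) (hr1 : r' < 1) (hx : 0 < x)
    (hxq : x ≤ q) (hqD : q + x ≤ L {c 0, c 1, c 2} k W' r' - W)
    (hcont : ContinuousAt (fun W => L {c 0} (c 1) W 0) W) (hUW : W < L {c 0} (c 1) W 0)
    (hUD : L {c 0} (c 1) W 0 ≤ L {c 0, c 1} (c 2) W 0)
    (hDx : L {c 0, c 1} (c 2) W 0 + x ≤ 1) {s : ℕ → ℝ} (hs1 : s 1 = L {c 0} (c 1) W 0)
    (hs2 : s 2 = L {c 0, c 1} (c 2) W 0)
    (hbase : ∀ t : ℝ, W < t → t < 1 → Pool.LA91.Ful S {c 0} W t) (hful : FulC S c 1 3 W s) :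
    ∃ e₀ : ℝ, 0 < e₀ ∧ ∃ C : ℝ, 0 < C ∧ Bas S (fun J F A =>
      ∀ (au cu av cv th : PtT F → ℝ) (ths ju jv : LnT F → ℝ) (e Mu Mv Nu Nv : ℕ),
        e ≤ ⌊e₀ * J⌋₊ → ⌊(L {c 0} (c 1) W 0 - W + x) * J⌋₊ ≤ Mu →
        ⌊(L {c 0, c 1} (c 2) W 0 - W + x) * J⌋₊ ≤ Mv →
        ⌊(L {c 0} (c 1) W 0 - W - e₀) * J⌋₊ ≤ Nu →
        ⌊(L {c 0, c 1} (c 2) W 0 - W - e₀) * J⌋₊ ≤ Nv →
        NDn F A (c 0) (c 1) (c 2) ⌊W * J⌋₊ e Mu Mv Nu Nv au cu av cv th ths ju jv →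
        ∃ B : F.Ω → Prop, Sub B A ∧ Pe F.p A ≤ C * Pe F.p B ∧
          ∀ ρ : ℕ, Lb F {c 0, c 1, c 2} k 1 ⌊x * J⌋₊ J ⌊W * J⌋₊ ρ
            (⌊W * J⌋₊ + ⌊(q - x) * J⌋₊) B) := by
  classical
  have h01 : c 0 ≠ c 1 := fun h => by
    have := hc (show (0 : ℕ) < 3 by norm_num) (show (1 : ℕ) < 3 by norm_num) h
    omega
  have h02 : c 0 ≠ c 2 := fun h => by
    have := hc (show (0 : ℕ) < 3 by norm_num) (show (2 : ℕ) < 3 by norm_num) h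
    omega
  have h12 : c 1 ≠ c 2 := fun h => by
    have := hc (show (1 : ℕ) < 3 by norm_num) (show (2 : ℕ) < 3 by norm_num) h
    omega
  have hcI : 0 < cI m := cI_pos m
  have hW1 : W ≤ 1 := by linarith only [hUW, hUD, hDx, hx]
  obtain ⟨Dk, hDk⟩ : ∃ Dk, Dk = L {c 0, c 1, c 2} k W' r' := ⟨_, rfl⟩
  have hDk1 : Dk ≤ 1 := by rw [hDk]; exact hL.le1 _ _ _ _
  rw [← hDk] at hqD
  obtain ⟨δ₀, hδ₀, hone⟩ := one_clr (k := k) htm hL hc hactF hW0 hx hcont hUW hUD hDx hs1 hs2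
    hbase hful
  obtain ⟨ε, hε⟩ : ∃ ε, ε = min (x / 64) (W / 4) := ⟨_, rfl⟩
  have hε0 : 0 < ε := by
    rw [hε]
    exact lt_min (by linarith only [hx]) (by linarith only [hW0])
  have hεx : ε ≤ x / 64 := by rw [hε]; exact min_le_left _ _
  have hεW : ε ≤ W / 4 := by rw [hε]; exact min_le_right _ _
  have hup := fun K hK => up_clr (k := k) htm hc hW0 hx hUW hUD hDx hs1 hs2 hbase hful K hK hε0
  obtain ⟨U, hU⟩ : ∃ U, U = L {c 0} (c 1) W 0 := ⟨_, rfl⟩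
  obtain ⟨D, hD⟩ : ∃ D, D = L {c 0, c 1} (c 2) W 0 := ⟨_, rfl⟩
  rw [← hU, ← hD] at hone hup
  rw [← hU] at hUW hUD
  rw [← hD] at hUD hDx
  rw [← hU, ← hD]
  obtain ⟨δ, hδd⟩ : ∃ δ, δ = min δ₀ (min (x / 1000) (min (ε / 8) ((1 - r') / 2))) := ⟨_, rfl⟩
  have hδ0 : 0 < δ := by
    rw [hδd]
    exact lt_min hδ₀ (lt_min (by linarith only [hx]) (lt_min (by linarith only [hε0])
      (by linarith only [hr1])))
  have hδx : δ ≤ x / 1000 := by rw [hδd]; exact (min_le_right _ _).trans (min_le_left _ _)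
  have hδε : δ ≤ ε / 8 := by
    rw [hδd]
    exact (min_le_right _ _).trans ((min_le_right _ _).trans (min_le_left _ _))
  have hδr : δ ≤ (1 - r') / 2 := by
    rw [hδd]
    exact (min_le_right _ _).trans ((min_le_right _ _).trans (min_le_right _ _))
  obtain ⟨K', hK'⟩ := hL.att {c 0, c 1, c 2} k W' W r' δ hW0 hW1 hW' hδ0
  rw [← hDk] at hK'
  obtain ⟨K, hK⟩ : ∃ K, K = K' + 1 := ⟨_, rfl⟩
  have hK1 : 1 ≤ K := by omega
  obtain ⟨e₁, he₁, hone2⟩ := hone δ hδ0 (by rw [hδd]; exact min_le_left _ _) K hK1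
  obtain ⟨e₂, he₂, hup2⟩ := hup K hK1
  obtain ⟨e₀, he₀⟩ : ∃ e₀, e₀ = min (min (min e₁ e₂) δ) ((U - W) / 2) := ⟨_, rfl⟩
  have he₀0 : 0 < e₀ := by
    rw [he₀]
    exact lt_min (lt_min (lt_min he₁ he₂) hδ0) (by linarith only [hUW])
  have he₀1 : e₀ ≤ e₁ := by
    rw [he₀]
    exact (min_le_left _ _).trans ((min_le_left _ _).trans (min_le_left _ _))
  have he₀2 : e₀ ≤ e₂ := by
    rw [he₀]
    exact (min_le_left _ _).trans ((min_le_left _ _).trans (min_le_right _ _))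
  have he₀δ : e₀ ≤ δ := by rw [he₀]; exact (min_le_left _ _).trans (min_le_right _ _)
  have he₀U : e₀ ≤ (U - W) / 2 := by rw [he₀]; exact min_le_right _ _
  obtain ⟨hS, hI⟩ := hone2 e₀ he₀0 he₀1
  obtain ⟨c₁, hc₁⟩ : ∃ c₁, c₁ = 576 * cI m ^ 3 := ⟨_, rfl⟩
  have hc₁0 : 0 < c₁ := by rw [hc₁]; positivity
  rw [← hc₁] at hI
  obtain ⟨n, hn⟩ := exists_nat_ge (32 / x)
  obtain ⟨c₀, hc₀⟩ : ∃ c₀, c₀ = cI m * (2 * cI m ^ 2) := ⟨_, rfl⟩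
  have hc₀0 : 0 < c₀ := by rw [hc₀]; positivity
  have hIn := bas_part (itr_clr htm hx hc₁0 hI n) hc₀0
  have hS' := bas_part hS (c := c₀ * c₁ ^ n) (by positivity)
  have hU' := bas_part (hup2 e₀ he₀0 he₀2) hcI
  refine ⟨e₀, he₀0, c₀ * c₁ ^ n * (288 * cI m), by positivity, ?_⟩
  obtain ⟨J₁, hJ₁⟩ := exists_nat_ge ((m + 100 + n) / δ)
  refine Bas.mono J₁ (hK'.and (hU'.and (hIn.and hS'))) ?_
  rintro J hJ F A ⟨⟨V, z, z', G, hG₀⟩, h0, h1, h2⟩ au cu av cv th ths ju jv e Mu Mv Nu Nv he hMu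
    hMv hNu hNv hnd₀
  have hJ0 : (0 : ℝ) ≤ J := Nat.cast_nonneg J
  have j1 : (J₁ : ℝ) ≤ J := by exact_mod_cast hJ
  have hm0 : (0 : ℝ) ≤ m := Nat.cast_nonneg m
  have hn0 : (0 : ℝ) ≤ n := Nat.cast_nonneg n
  have kk : (m : ℝ) + 100 + n ≤ δ * J := by
    have := hJ₁.trans j1
    rw [div_le_iff₀ hδ0] at this
    linarith only [this]
  have hcast : ∀ a b : ℕ, (a : ℝ) ≤ b → a ≤ b := fun a b h => by exact_mod_cast h
  have g0 : ∀ z : ℝ, 0 ≤ z → ((⌊z * J⌋₊ : ℕ) : ℝ) ≤ z * J := fun z hz =>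
    Nat.floor_le (mul_nonneg hz hJ0)
  have g1 : ∀ z : ℝ, z * J - 1 < ((⌊z * J⌋₊ : ℕ) : ℝ) := fun z => Nat.sub_one_lt_floor _
  have q0 : δ * J ≤ x / 1000 * J := mul_le_mul_of_nonneg_right hδx hJ0
  have q1 : e₀ * J ≤ δ * J := mul_le_mul_of_nonneg_right he₀δ hJ0
  have q2 : (q + x) * J ≤ (Dk - W) * J := mul_le_mul_of_nonneg_right hqD hJ0
  have q3 : x * J ≤ q * J := mul_le_mul_of_nonneg_right hxq hJ0
  have q4 : (r' + δ) * J + δ * J ≤ 1 * J := by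
    have := mul_le_mul_of_nonneg_right (by linarith only [hδr] : r' + δ + δ ≤ 1) hJ0
    linarith only [this]
  have q8 : δ * J ≤ ε / 8 * J := mul_le_mul_of_nonneg_right hδε hJ0
  have q9 : ε * J ≤ x / 64 * J := mul_le_mul_of_nonneg_right hεx hJ0
  have q10 : ε * J ≤ W / 4 * J := mul_le_mul_of_nonneg_right hεW hJ0
  have q5 : Dk * J ≤ 1 * J := mul_le_mul_of_nonneg_right hDk1 hJ0
  have q6 : 0 ≤ e₀ * J := mul_nonneg he₀0.le hJ0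
  have q7 : 0 ≤ W * J := mul_nonneg hW0.le hJ0
  obtain ⟨E, hE⟩ : ∃ E, E = ⌊δ * J⌋₊ := ⟨_, rfl⟩
  have hE1 : (E : ℝ) ≤ δ * J := by rw [hE]; exact g0 δ hδ0.le
  obtain ⟨ee, hee⟩ : ∃ ee, ee = ⌊e₀ * J⌋₊ := ⟨_, rfl⟩
  have hee1 : (ee : ℝ) ≤ e₀ * J := by rw [hee]; exact g0 _ he₀0.le
  obtain ⟨w, hw⟩ : ∃ w, w = ⌊W * J⌋₊ := ⟨_, rfl⟩
  have hw1 : (w : ℝ) ≤ W * J := by rw [hw]; exact g0 W hW0.le
  have hw2 : W * J - 1 < w := by rw [hw]; exact g1 W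
  obtain ⟨nU, hnU⟩ : ∃ nU, nU = ⌊(U - W - e₀) * J⌋₊ := ⟨_, rfl⟩
  have hnU1 : (nU : ℝ) ≤ (U - W - e₀) * J := by
    rw [hnU]
    exact g0 _ (by linarith only [he₀U, hUW])
  obtain ⟨nD, hnD⟩ : ∃ nD, nD = ⌊(D - W - e₀) * J⌋₊ := ⟨_, rfl⟩
  have hnD1 : (nD : ℝ) ≤ (D - W - e₀) * J := by
    rw [hnD]
    exact g0 _ (by linarith only [he₀U, hUW, hUD])
  obtain ⟨cc, hcc⟩ : ∃ cc, cc = ⌊x / 2 * J⌋₊ := ⟨_, rfl⟩
  have hcc1 : (cc : ℝ) ≤ x / 2 * J := by rw [hcc]; exact g0 _ (by linarith only [hx])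
  have hcc2 : x / 2 * J - 1 < cc := by rw [hcc]; exact g1 _
  obtain ⟨Y, hY⟩ : ∃ Y, Y = ⌊x / 8 * J⌋₊ := ⟨_, rfl⟩
  have hY1 : (Y : ℝ) ≤ x / 8 * J := by rw [hY]; exact g0 _ (by linarith only [hx])
  obtain ⟨Z, hZ⟩ : ∃ Z, Z = ⌊x / 32 * J⌋₊ := ⟨_, rfl⟩
  have hZ1 : (Z : ℝ) ≤ x / 32 * J := by rw [hZ]; exact g0 _ (by linarith only [hx])
  have hZ2 : x / 32 * J - 1 < Z := by rw [hZ]; exact g1 _
  obtain ⟨gg, hgg⟩ : ∃ gg, gg = ⌊x / 16 * J⌋₊ := ⟨_, rfl⟩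
  have hgg2 : x / 16 * J - 1 < gg := by rw [hgg]; exact g1 _
  obtain ⟨ρ, hρ⟩ : ∃ ρ, ρ = ⌊(r' + δ) * J⌋₊ := ⟨_, rfl⟩
  have hρJ : ρ ≤ J := by
    rw [hρ]
    refine Nat.floor_le_of_le ?_
    linarith only [q4, kk, hm0, hn0]
  obtain ⟨ε', hε'⟩ : ∃ ε', ε' = ⌊ε * (J : ℝ)⌋₊ := ⟨_, rfl⟩
  have hε'1 : (ε' : ℝ) ≤ ε * J := by rw [hε']; exact g0 ε hε0.le
  obtain ⟨P₀, hP₀⟩ : ∃ P₀, P₀ = ⌊(Dk - δ) * J⌋₊ := ⟨_, rfl⟩
  have hP₀1 : (P₀ : ℝ) ≤ (Dk - δ) * J := by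
    rw [hP₀]
    exact g0 _ (by linarith only [hqD, hxq, hx, hW0, hδx])
  have hP₀2 : (Dk - δ) * J - 1 < P₀ := by rw [hP₀]; exact g1 _
  obtain ⟨PG, hPG⟩ : ∃ PG, PG = P₀ - (m + 4) := ⟨_, rfl⟩
  have hP₀m : m + 4 ≤ P₀ := hcast _ _ (by
    push_cast
    linarith only [hP₀2, q2, q3, q0, kk, hm0, hn0, q7])
  have hPG' : PG + (m + 4) = P₀ := by omega
  have hPGr : (PG : ℝ) + (m + 4) = P₀ := by exact_mod_cast hPG'
  -- the label
  rw [← hE, ← hw, ← hρ, ← hP₀] at hG₀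
  have hG : LbOK F {c 0, c 1, c 2} k K E J w ρ PG A z z' G :=
    hG₀.mono (Finset.Subset.refl _) (by omega) le_rfl le_rfl (by omega)
  -- the slopes
  have mulp : ∀ a b : ℕ, (1 : ℝ) / 2 ^ a * (1 / 2 ^ b) = 1 / 2 ^ (a + b) := by
    intro a b
    rw [pow_add]
    field_simp
  rw [← hw] at hnd₀
  have hpe : (2 : ℝ) ^ e ≤ 2 ^ ee := pow_le_pow_right₀ (by norm_num) (by rw [hee]; exact he)
  have hnd : ND F A (c 0) (c 1) (c 2) w ee au cu av cv th ths ju jv (1 / 2 ^ nU) (1 / 2 ^ nD)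
      (1 / 2 ^ cc) := by
    refine ⟨hnd₀.thc, fun ω hω => (hnd₀.bth ω hω).trans hpe, fun ω hω =>
      ⟨(hnd₀.bu ω hω).1.trans hpe, (hnd₀.bu ω hω).2.trans hpe⟩, fun ω hω =>
      ⟨(hnd₀.bv ω hω).1.trans hpe, (hnd₀.bv ω hω).2.trans hpe⟩, fun ω hω => ?_, fun ω hω => ?_,
      fun ω hω => ?_, fun ω hω => ?_⟩
    · refine (hnd₀.vu ω hω).trans ?_
      rw [mulp]
      refine Pool.PB.inv_mono (le_trans (hcast _ _ ?_) hMu)
      push_cast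
      have := g1 (U - W + x)
      linarith only [this, hcc1, hnU1, q0, q6, kk, hm0, hn0]
    · refine (hnd₀.vv ω hω).trans ?_
      rw [mulp]
      refine Pool.PB.inv_mono (le_trans (hcast _ _ ?_) hMv)
      push_cast
      have := g1 (D - W + x)
      linarith only [this, hcc1, hnD1, q0, q6, kk, hm0, hn0]
    · refine (hnd₀.nu ω hω).trans (Pool.PB.inv_mono ?_)
      rw [hnU]
      exact hNu
    · refine (hnd₀.nv ω hω).trans (Pool.PB.inv_mono ?_)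
      rw [hnD]
      exact hNv
  have le1 : ∀ a : ℕ, (1 : ℝ) / 2 ^ a ≤ 1 := fun a => by
    rw [div_le_one (by positivity)]
    exact one_le_pow₀ (by norm_num)
  have hwJ : w ≤ J := hcast _ _ (by linarith only [hw1, q2, q3, q5, q0, kk, hm0, hn0])
  -- the start
  obtain ⟨s₀, hs₀⟩ : ∃ s₀, s₀ = w - Z := ⟨_, rfl⟩
  have hεZ : ε' + m + 4 ≤ Z := hcast _ _ (by
    push_cast
    linarith only [hε'1, hZ2, q9, q8, kk, hm0, hn0, q0])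
  have hεw : ε' + m + 4 ≤ w := hcast _ _ (by
    push_cast
    linarith only [hε'1, hw2, q10, q8, kk, hm0, hn0, q7])
  have nG : PG + E + m + 3 ≤ J := hcast _ _ (by
    push_cast
    linarith only [hPGr, hP₀1, hE1, q5])
  have hPGw : w ≤ PG := hcast _ _ (by
    linarith only [hPGr, hP₀2, hw1, q2, q3, q0, kk, hm0, hn0])
  obtain ⟨B₀, o1, o2, o3⟩ := lab_grd (F := F) (A := A) (I := {c 0, c 1, c 2}) (v := k)
    (av := fun _ _ => 0) (cv := fun _ => 0) (th := fun _ _ => 0) (W := w) (M := 0) (e := 0)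
    (P := w - (m + 3)) hwJ (fun ω _ => by
      refine ⟨fun j _ => ?_, ?_, ?_⟩
      · show |(0 : ℝ)| ≤ 2 ^ 0
        rw [abs_zero]
        norm_num
      · show |(0 : ℝ)| ≤ 2 ^ 0
        rw [abs_zero]
        norm_num
      · show |F.d ω k - 0 - ∑ j ∈ ({c 0, c 1, c 2} : Finset (Fin m)), 0 * F.d ω j| ≤ 1 / 2 ^ 0
        rw [Finset.sum_eq_zero fun j _ => zero_mul _, sub_zero, sub_zero, pow_zero, div_one]
        exact F.dir ω k) (fun ω _ j _ => by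
      show |(0 : ℝ) - 0| ≤ 1 / 2 ^ 0
      rw [sub_zero, abs_zero]
      norm_num) (by omega) (by omega)
  obtain ⟨V₀, z₀, z₀', G₀, hL₀⟩ := o3 0
  rw [← hw, ← hee, ← hnU, ← hnD, ← hε'] at h0
  obtain ⟨A₁, p1, p2, p3⟩ := h0 B₀ o1 o2 V z z' G V₀ z₀ z₀' G₀ E (0 + 1) ρ 0 PG (w - (m + 3)) au cu
    av cv th ths ju jv (1 / 2 ^ cc) (hG.sub o1) hL₀ hρJ (Nat.zero_le _) nG (by omega)
    (hnd.sub o1) (le1 _)
  have hA₁A : Sub A₁ A := fun ω hω => o1 ω (p1 ω hω)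
  have hPA₁ : Pe F.p A ≤ c₀ * Pe F.p A₁ := by
    have := mul_le_mul_of_nonneg_left p2 hcI.le
    rw [hc₀]
    calc Pe F.p A ≤ cI m * Pe F.p B₀ := o2
      _ ≤ cI m * (2 * cI m ^ 2 * Pe F.p A₁) := this
      _ = cI m * (2 * cI m ^ 2) * Pe F.p A₁ := by ring
  have hst := p3.mono (H' := 1 / 2 ^ s₀) (by
    have a1 : (1 : ℝ) / 2 ^ PG ≤ 1 / 2 ^ (w - (m + 3)) := Pool.PB.inv_mono (by omega)
    have a2 : (2 : ℝ) ^ ε' * (1 / 2 ^ PG + 1 / 2 ^ (w - (m + 3))) ≤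
        2 ^ ε' * (1 / 2 ^ (w - (m + 3)) + 1 / 2 ^ (w - (m + 3))) :=
      mul_le_mul_of_nonneg_left (by linarith only [a1]) (by positivity)
    refine a2.trans ?_
    have a3 : (2 : ℝ) ^ ε' * (1 / 2 ^ (w - (m + 3)) + 1 / 2 ^ (w - (m + 3))) =
        2 ^ (ε' + 1) / 2 ^ (w - (m + 3)) := by
      rw [pow_succ]
      ring
    rw [a3, div_le_div_iff₀ (by positivity) (by positivity), one_mul, ← pow_add]
    exact pow_le_pow_right₀ (by norm_num) (by omega))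
  -- the iteration
  obtain ⟨T, hT⟩ : ∃ T, T = PG - (Z + 1 + 2 * Y) := ⟨_, rfl⟩
  have hTw : w + (Z + 1 + 2 * Y) ≤ PG := hcast _ _ (by
    push_cast
    linarith only [hPGr, hP₀2, hw1, hZ1, hY1, q2, q3, q0, kk, hm0, hn0])
  have hT' : T + (Z + 1 + 2 * Y) = PG := by omega
  rw [← hE, ← hw, ← hnU, ← hnD, ← hcc, ← hee, ← hY, ← hZ, ← hgg] at h1
  rw [← hE, ← hw, ← hnU, ← hnD, ← hcc, ← hee, ← hY] at h2
  obtain ⟨B₁, b1, b2, b3⟩ := h1 A₁ hA₁A hPA₁ V z z' G ρ PG s₀ T au cu av cv th ths ju jv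
    (hG.sub hA₁A) (hnd.sub hA₁A) hst hρJ nG (by omega) (by omega) (by omega)
  have hB₁A : Sub B₁ A := fun ω hω => hA₁A ω (b1 ω hω)
  have hPB₁ : Pe F.p A ≤ c₀ * c₁ ^ n * Pe F.p B₁ := by
    have := mul_le_mul_of_nonneg_left b2 hc₀0.le
    calc Pe F.p A ≤ c₀ * Pe F.p A₁ := hPA₁
      _ ≤ c₀ * (c₁ ^ n * Pe F.p B₁) := this
      _ = c₀ * c₁ ^ n * Pe F.p B₁ := by ring
  have hng : PG ≤ s₀ + n * gg := hcast _ _ (by
    push_cast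
    have a1 : 32 / x * (x * J) ≤ n * (x * J) :=
      mul_le_mul_of_nonneg_right hn (mul_nonneg hx.le hJ0)
    have a2 : 32 / x * (x * J) = 32 * J := by field_simp
    have a3 : (n : ℝ) * (x / 16 * J - 1) ≤ n * gg := mul_le_mul_of_nonneg_left hgg2.le hn0
    have a4 : (0 : ℝ) ≤ s₀ := Nat.cast_nonneg _
    have a5 : δ * J ≤ J := by
      have : δ ≤ 1 := by linarith only [hδx, hDx, hUD, hUW, hW0, hx]
      exact mul_le_of_le_one_left hJ0 this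
    linarith only [a1, a2, a3, a4, a5, hPGr, hP₀1, q5, kk, hm0, hδ0, hn0])
  have hmin : min T (s₀ + n * gg) = T := min_eq_left (by omega)
  rw [hmin] at b3
  obtain ⟨B, d1, d2, d3⟩ := h2 B₁ hB₁A hPB₁ V z z' G ρ PG (PG - Y) (PG - 2 * Y) T au cu av cv th
    ths ju jv (hG.sub hB₁A) (hnd.sub hB₁A) b3 hρJ (by omega) (by
      have a1 : Z + 1 + 2 * Y ≤ cc := hcast _ _ (by
        push_cast
        linarith only [hZ1, hY1, hcc2, q0, kk, hm0, hn0])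
      omega) (by omega) (by omega) (by omega)
  refine ⟨B, fun ω hω => hB₁A ω (d1 ω hω), ?_, fun ρ' => ?_⟩
  · have h3 := mul_le_mul_of_nonneg_left d2 (by positivity : (0 : ℝ) ≤ c₀ * c₁ ^ n)
    calc Pe F.p A ≤ c₀ * c₁ ^ n * Pe F.p B₁ := hPB₁
      _ ≤ c₀ * c₁ ^ n * (288 * cI m * Pe F.p B) := h3
      _ = c₀ * c₁ ^ n * (288 * cI m) * Pe F.p B := by ring
  · rw [← hw]
    refine (d3 ρ').mono (Finset.Subset.refl _) le_rfl (hcast _ _ ?_) le_rfl le_rfl hwJ le_rfl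
      (hcast _ _ ?_)
    · push_cast
      have := g1 x
      linarith only [this, hE1, q0, kk, hm0, hn0]
    · have a1 : 2 * Y ≤ PG := by omega
      rw [Nat.cast_sub a1]
      push_cast
      have a2 : ((⌊(q - x) * (J : ℝ)⌋₊ : ℕ) : ℝ) ≤ (q - x) * J :=
        g0 _ (by linarith only [hxq])
      linarith only [a2, hw1, hPGr, hP₀2, hY1, q2, q0, kk, hm0, hn0]

end Pool.JVE.R6
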